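import Mathlib

namespace Pool.Agent.Results.MP_db05cd_nt.AlmostAllTerminate

open Finset

/-- The partial map `g` of the problem; `none` means undefined. -/
def g (p : ℕ × ℕ) : Option (ℕ × ℕ) :=
  if p.2 = 1 then
    (if p.1 % 3 = 0 then some (5 * (p.1 / 3) + 1, 1)
     else if p.1 % 3 = 2 then some (5 * (p.1 / 3) + 4, 2)
     else none)
  else
    (if p.1 % 3 = 0 then some (5 * (p.1 / 3) + 1, 2)
     else if p.1 % 3 = 1 then some (5 * (p.1 / 3) + 3, 1)
     else none)

/-- The `j`-th iterate of `g` at `(n, i)`, `none` if it is undefined. -/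
def iter (j n i : ℕ) : Option (ℕ × ℕ) := (fun o : Option (ℕ × ℕ) => o.bind g)^[j] (some (n, i))

lemma iter_none (j : ℕ) : (fun o : Option (ℕ × ℕ) => o.bind g)^[j] none = none := by
  induction j with
  | zero => rfl
  | succ j ih => rw [Function.iterate_succ_apply]; exact ih

lemma iter_succ (j n i : ℕ) :
    iter (j + 1) n i = (fun o : Option (ℕ × ℕ) => o.bind g)^[j] (g (n, i)) := by
  unfold iter
  rw [Function.iterate_succ_apply]
  rfl

/-- the state after a step from residue `r` in state `i` -/
def nxt (r i : ℕ) : ℕ := if i = 1 then (if r = 0 then 1 else 2) else (if r = 0 then 2 else 1)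

/-- the additive constant -/
def cst (r i : ℕ) : ℕ := if i = 1 then (if r = 0 then 1 else 4) else (if r = 0 then 1 else 3)

/-- the residue where `g` is undefined -/
def bad (i : ℕ) : ℕ := if i = 1 then 1 else 2

lemma nxt_mem (r i : ℕ) : nxt r i = 1 ∨ nxt r i = 2 := by
  unfold nxt
  split_ifs <;> simp

lemma iter_good (j k r i : ℕ) (hr : r < 3) (hb : r ≠ bad i) :
    iter (j + 1) (3 * k + r) i = iter j (5 * k + cst r i) (nxt r i) := by
  rw [iter_succ]
  have h1 : (3 * k + r) % 3 = r := by omega
  have h2 : (3 * k + r) / 3 = k := by omega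
  have hg : g (3 * k + r, i) = some (5 * k + cst r i, nxt r i) := by
    unfold g
    simp only [h1, h2]
    unfold bad at hb
    unfold cst nxt
    by_cases hi : i = 1
    · rw [if_pos hi] at hb
      interval_cases r
      · simp [hi]
      · exact absurd rfl hb
      · simp [hi]
    · rw [if_neg hi] at hb
      interval_cases r
      · simp [hi]
      · simp [hi]
      · exact absurd rfl hb
  rw [hg]
  rfl

lemma iter_bad (j k i : ℕ) : iter (j + 1) (3 * k + bad i) i = none := by
  rw [iter_succ]
  have hg : g (3 * k + bad i, i) = none := by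
    unfold g bad
    by_cases hi : i = 1
    · have h1 : (3 * k + 1) % 3 = 1 := by omega
      simp [hi, h1]
    · have h1 : (3 * k + 2) % 3 = 2 := by omega
      simp [hi, h1]
  rw [hg]
  exact iter_none j

/-- Whether the `j`-th iterate is defined depends only on `n` modulo `3 ^ j`. -/
lemma periodic (j : ℕ) : ∀ n t i : ℕ, iter j (n + 3 ^ j * t) i = none ↔ iter j n i = none := by
  induction j with
  | zero => intro n t i; simp [iter]
  | succ j ih =>
    intro n t i
    obtain ⟨k, r, hr, rfl⟩ : ∃ k r, r < 3 ∧ n = 3 * k + r :=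
      ⟨n / 3, n % 3, Nat.mod_lt _ (by norm_num), (Nat.div_add_mod n 3).symm⟩
    have e1 : 3 * k + r + 3 ^ (j + 1) * t = 3 * (k + 3 ^ j * t) + r := by ring
    rw [e1]
    by_cases hb : r = bad i
    · subst hb
      rw [iter_bad, iter_bad]
    · rw [iter_good j _ r i hr hb, iter_good j _ r i hr hb]
      have e2 : 5 * (k + 3 ^ j * t) + cst r i = (5 * k + cst r i) + 3 ^ j * (5 * t) := by ring
      rw [e2]
      exact ih _ _ _

lemma periodic_mod (j n i : ℕ) : iter j (n % 3 ^ j) i = none ↔ iter j n i = none := by
  conv_rhs => rw [← Nat.mod_add_div n (3 ^ j)]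
  exact (periodic j _ _ _).symm

/-- the number of `n < 3 ^ j` whose `j`-th iterate is defined -/
lemma card_affine (j c i : ℕ) :
    ((range (3 ^ j)).filter fun k => ¬ iter j (5 * k + c) i = none).card =
      ((range (3 ^ j)).filter fun k => ¬ iter j k i = none).card := by
  have hpos : 0 < 3 ^ j := by positivity
  have hinj : Set.InjOn (fun k => (5 * k + c) % 3 ^ j) (range (3 ^ j) : Set ℕ) := by
    intro a ha b hb hab
    simp only [coe_range, Set.mem_Iio] at ha hb
    have h1 : 5 * a + c ≡ 5 * b + c [MOD 3 ^ j] := hab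
    have h2 : 5 * a ≡ 5 * b [MOD 3 ^ j] := Nat.ModEq.add_right_cancel' c h1
    have hc : Nat.gcd (3 ^ j) 5 = 1 := by
      apply Nat.Coprime.pow_left
      norm_num
    have h3 : a ≡ b [MOD 3 ^ j] := Nat.ModEq.cancel_left_of_coprime hc h2
    exact Nat.ModEq.eq_of_lt_of_lt h3 ha hb
  have himg : (range (3 ^ j)).image (fun k => (5 * k + c) % 3 ^ j) = range (3 ^ j) := by
    apply eq_of_subset_of_card_le
    · intro x hx
      rw [mem_image] at hx
      obtain ⟨k, -, rfl⟩ := hx
      exact mem_range.2 (Nat.mod_lt _ hpos)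
    · rw [card_image_of_injOn hinj]
  have hkey : ((range (3 ^ j)).filter fun k => ¬ iter j k i = none) =
      ((range (3 ^ j)).filter fun k => ¬ iter j (5 * k + c) i = none).image
        (fun k => (5 * k + c) % 3 ^ j) := by
    ext x
    simp only [mem_filter, mem_image]
    constructor
    · rintro ⟨hx, hx2⟩
      rw [← himg, mem_image] at hx
      obtain ⟨k, hk, rfl⟩ := hx
      refine ⟨k, ⟨hk, ?_⟩, rfl⟩
      rwa [periodic_mod] at hx2
    · rintro ⟨k, ⟨hk, hk2⟩, rfl⟩
      refine ⟨mem_range.2 (Nat.mod_lt _ hpos), ?_⟩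
      rwa [periodic_mod]
  rw [hkey, card_image_of_injOn]
  exact hinj.mono (by
    intro x hx
    exact mem_coe.2 (mem_filter.1 (mem_coe.1 hx)).1)

/-- exact count -/
lemma count (j : ℕ) : ∀ i : ℕ, (i = 1 ∨ i = 2) →
    ((range (3 ^ j)).filter fun n => ¬ iter j n i = none).card = 2 ^ j := by
  induction j with
  | zero =>
    intro i _
    simp [iter]
  | succ j ih =>
    intro i hi
    -- the two good residues
    have hsplit : ∀ r, r < 3 → r ≠ bad i →
        (((range (3 ^ (j + 1))).filter fun n => ¬ iter (j + 1) n i = none).filter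
          fun n => n % 3 = r).card = 2 ^ j := by
      intro r hr hb
      have e1 : (((range (3 ^ (j + 1))).filter fun n => ¬ iter (j + 1) n i = none).filter
          fun n => n % 3 = r) =
          ((range (3 ^ j)).filter fun k => ¬ iter j (5 * k + cst r i) (nxt r i) = none).image
            (fun k => 3 * k + r) := by
        ext x
        simp only [mem_filter, mem_image, mem_range]
        constructor
        · rintro ⟨⟨h1, h2⟩, h3⟩
          refine ⟨x / 3, ⟨?_, ?_⟩, by omega⟩
          · rw [pow_succ] at h1; omega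
          · have hx : x = 3 * (x / 3) + r := by omega
            rw [hx, iter_good j _ r i hr hb] at h2
            exact h2
        · rintro ⟨k, ⟨h1, h2⟩, rfl⟩
          refine ⟨⟨by rw [pow_succ]; omega, ?_⟩, by omega⟩
          rw [iter_good j _ r i hr hb]
          exact h2
      rw [e1, card_image_of_injective _ (by intro a b h; simp only at h; omega), card_affine,
        ih _ (nxt_mem r i)]
    have hbad : (((range (3 ^ (j + 1))).filter fun n => ¬ iter (j + 1) n i = none).filter
          fun n => n % 3 = bad i).card = 0 := by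
      rw [card_eq_zero, filter_eq_empty_iff]
      intro x hx h
      rw [mem_filter] at hx
      apply hx.2
      have hx' : x = 3 * (x / 3) + bad i := by omega
      rw [hx']
      exact iter_bad _ _ _
    have htot : ((range (3 ^ (j + 1))).filter fun n => ¬ iter (j + 1) n i = none).card =
        ∑ r ∈ range 3, (((range (3 ^ (j + 1))).filter fun n => ¬ iter (j + 1) n i = none).filter
          fun n => n % 3 = r).card := by
      apply card_eq_sum_card_fiberwise
      intro x _
      simp only [coe_range, Set.mem_Iio]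
      exact Nat.mod_lt _ (by norm_num)
    rw [htot, sum_range_succ, sum_range_succ, sum_range_one]
    rcases hi with rfl | rfl
    · have hb1 : bad 1 = 1 := rfl
      rw [hsplit 0 (by norm_num) (by rw [hb1]; norm_num),
        hsplit 2 (by norm_num) (by rw [hb1]; norm_num)]
      rw [hb1] at hbad
      rw [hbad, pow_succ]; ring
    · have hb1 : bad 2 = 2 := rfl
      rw [hsplit 0 (by norm_num) (by rw [hb1]; norm_num),
        hsplit 1 (by norm_num) (by rw [hb1]; norm_num)]
      rw [hb1] at hbad
      rw [hbad, pow_succ]; ring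

/-- For every `j` exactly `2 ^ j` of the `n < 3 ^ j` have a defined `j`-th iterate; and for all
but `2 X ^ (log 2 / log 3)` of the `n < X` the orbit terminates within `⌈log X / log 3⌉` steps. -/
theorem result :
    (∀ j i : ℕ, (i = 1 ∨ i = 2) →
      ((range (3 ^ j)).filter fun n => ¬ iter j n i = none).card = 2 ^ j) ∧
    (∀ X i : ℕ, 1 ≤ X → (i = 1 ∨ i = 2) →
      (((range X).filter fun n => ¬ iter (Nat.clog 3 X) n i = none).card : ℝ) ≤
        2 * (X : ℝ) ^ (Real.log 2 / Real.log 3)) := by
  refine ⟨fun j i hi => count j i hi, ?_⟩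
  intro X i hX hi
  set j := Nat.clog 3 X with hj
  have hXj : X ≤ 3 ^ j := Nat.le_pow_clog (by norm_num) X
  have h1 : ((range X).filter fun n => ¬ iter j n i = none).card ≤ 2 ^ j := by
    rw [← count j i hi]
    exact card_le_card (filter_subset_filter _ (range_subset_range.2 hXj))
  have h2 : (((range X).filter fun n => ¬ iter j n i = none).card : ℝ) ≤ 2 ^ j := by
    exact_mod_cast h1
  refine h2.trans ?_
  have hθ : 0 < Real.log 2 / Real.log 3 :=
    div_pos (Real.log_pos (by norm_num)) (Real.log_pos (by norm_num))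
  have hX0 : (0 : ℝ) < X := by exact_mod_cast hX
  rcases Nat.eq_zero_or_pos j with h0 | hjpos
  · rw [h0, pow_zero]
    have hX1 : (1 : ℝ) ≤ X := by exact_mod_cast hX
    have := Real.one_le_rpow hX1 hθ.le
    linarith
  · have hX2 : 1 < X := by
      by_contra hcon
      have : X = 1 := by omega
      rw [hj, this] at hjpos
      simp at hjpos
    have h3 : 3 ^ (j - 1) < X := Nat.pow_pred_clog_lt_self (by norm_num) hX2
    have h4 : ((3 : ℝ) ^ (j - 1)) ≤ X := by exact_mod_cast h3.le
    have h5 : (2 : ℝ) ^ (j - 1) = ((3 : ℝ) ^ (j - 1)) ^ (Real.log 2 / Real.log 3) := by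
      rw [← Real.rpow_natCast, ← Real.rpow_natCast, ← Real.rpow_mul (by norm_num), mul_comm,
        Real.rpow_mul (by norm_num)]
      congr 1
      rw [Real.rpow_def_of_pos (by norm_num)]
      rw [mul_div_cancel₀ _ (Real.log_pos (by norm_num)).ne']
      rw [Real.exp_log (by norm_num)]
    have h6 : ((3 : ℝ) ^ (j - 1)) ^ (Real.log 2 / Real.log 3) ≤
        (X : ℝ) ^ (Real.log 2 / Real.log 3) :=
      Real.rpow_le_rpow (by positivity) h4 hθ.le
    have h7 : (2 : ℝ) ^ j = 2 * 2 ^ (j - 1) := by
      rw [← pow_succ']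
      congr 1
      omega
    rw [h7, h5]
    linarith

end Pool.Agent.Results.MP_db05cd_nt.AlmostAllTerminate
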