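import Mathlib

/-!
Counting the starting values whose orbit survives.  In the coordinate `v = 3 n + 3 + i` the map is
`v ↦ (5 v ± 1) / 3` (the nearest integer to `5 v / 3`), and the orbit stops at a multiple of `3`.
A survivor of `J` steps is determined modulo `3 ^ J` by its word of `J` signs, and the residues are
the values of a random signed sum.  The number of survivors in a short interval is bounded by a
product of cosines averaged over the frequencies of a kernel `cos ^ (2 L)`; four blocks of digits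
and the Cauchy-Schwarz inequality reduce this to fourth moments of blocks, which are small for
blocks at good depths; the chain lemma provides good depths.
-/

namespace Pool.Agent.Results.MP_db05cd_nt.BelowEntropy

open Finset

/-- The partial map `g` of the problem; `none` means undefined. -/
def g (p : ℕ × ℕ) : Option (ℕ × ℕ) :=
  if p.2 = 1 then
    (if p.1 % 3 = 0 then some (5 * (p.1 / 3) + 1, 1)
     else if p.1 % 3 = 2 then some (5 * (p.1 / 3) + 4, 2)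
     else none)
  else
    (if p.1 % 3 = 0 then some (5 * (p.1 / 3) + 1, 2)
     else if p.1 % 3 = 1 then some (5 * (p.1 / 3) + 3, 1)
     else none)

/-- The `j`-th iterate of `g` at `(n, i)`, `none` if it is undefined. -/
def iter (j n i : ℕ) : Option (ℕ × ℕ) := (fun o : Option (ℕ × ℕ) => o.bind g)^[j] (some (n, i))

/-- sign of a bit -/
def sg (b : Bool) : ℤ := if b then 1 else -1

lemma prodsum {ι : Type} [Fintype ι] [DecidableEq ι] (a : ι → ℝ) (φ : ℝ) :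
    ∑ s : ι → Bool, Real.cos (φ + ∑ i, (sg (s i) : ℝ) * a i) =
      2 ^ Fintype.card ι * Real.cos φ * ∏ i, Real.cos (a i) := by
  have h1 : ∑ s : ι → Bool, Complex.exp ((φ + ∑ i, (sg (s i) : ℝ) * a i : ℝ) * Complex.I) =
      Complex.exp (φ * Complex.I) * ∏ i, (2 * Complex.cos (a i)) := by
    have h2 : ∏ i, (2 * Complex.cos (a i)) =
        ∏ i, ∑ b : Bool, Complex.exp (((sg b : ℝ) * a i : ℝ) * Complex.I) := by
      apply prod_congr rfl
      intro i _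
      rw [Complex.two_cos]
      simp [sg]
    rw [h2, Finset.prod_univ_sum, Fintype.piFinset_univ, mul_sum]
    apply sum_congr rfl
    intro s _
    rw [← Complex.exp_sum, ← Complex.exp_add]
    congr 1
    push_cast
    rw [add_mul, sum_mul]
  have h3 := congrArg Complex.re h1
  rw [Complex.re_sum] at h3
  have h4 : ∀ s : ι → Bool, (Complex.exp ((φ + ∑ i, (sg (s i) : ℝ) * a i : ℝ) * Complex.I)).re =
      Real.cos (φ + ∑ i, (sg (s i) : ℝ) * a i) := by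
    intro s
    rw [Complex.exp_ofReal_mul_I_re]
  rw [sum_congr rfl (fun s _ => h4 s)] at h3
  rw [h3]
  have h5 : ∏ i, (2 * Complex.cos (a i)) = ((∏ i, (2 * Real.cos (a i)) : ℝ) : ℂ) := by
    push_cast
    rfl
  rw [h5, Complex.re_mul_ofReal, Complex.exp_ofReal_mul_I_re, prod_mul_distrib, prod_const,
    card_univ]
  ring

/-- average over `r` random digits in `-2..2` with weights `1,4,6,4,1` over `16` -/
noncomputable def av : ℕ → (ℕ → ℤ) → (ℤ → ℝ) → ℤ → ℝ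
  | 0, _, f, x => f x
  | r + 1, c, f, x =>
    (av r (fun j => c (j + 1)) f (x - 2 * c 0) + 4 * av r (fun j => c (j + 1)) f (x - c 0)
      + 6 * av r (fun j => c (j + 1)) f x + 4 * av r (fun j => c (j + 1)) f (x + c 0)
      + av r (fun j => c (j + 1)) f (x + 2 * c 0)) / 16

lemma cos_id (a b : ℝ) :
    (Real.cos (a - 2 * b) + 4 * Real.cos (a - b) + 6 * Real.cos a + 4 * Real.cos (a + b)
      + Real.cos (a + 2 * b)) / 16 = Real.cos a * Real.cos (b / 2) ^ 4 := by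
  have h1 : Real.cos (b / 2) ^ 2 = 1 / 2 + Real.cos b / 2 := by
    rw [Real.cos_sq]
    congr 2
    congr 1
    ring
  have h2 : Real.cos (b / 2) ^ 4 = (1 / 2 + Real.cos b / 2) ^ 2 := by
    rw [← h1]; ring
  rw [h2, Real.cos_sub, Real.cos_sub, Real.cos_add, Real.cos_add, Real.cos_two_mul]
  ring

lemma av_cos (r : ℕ) : ∀ (c : ℕ → ℤ) (κ : ℝ) (x : ℤ),
    av r c (fun x => Real.cos (κ * x)) x =
      Real.cos (κ * x) * ∏ j ∈ range r, Real.cos (κ * c j / 2) ^ 4 := by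
  induction r with
  | zero => intro c κ x; simp [av]
  | succ r ih =>
    intro c κ x
    rw [av]
    simp only [ih]
    rw [prod_range_succ']
    have h := cos_id (κ * x) (κ * c 0)
    have e1 : κ * ((x - 2 * c 0 : ℤ) : ℝ) = κ * x - 2 * (κ * c 0) := by push_cast; ring
    have e2 : κ * ((x - c 0 : ℤ) : ℝ) = κ * x - (κ * c 0) := by push_cast; ring
    have e3 : κ * ((x + c 0 : ℤ) : ℝ) = κ * x + (κ * c 0) := by push_cast; ring
    have e4 : κ * ((x + 2 * c 0 : ℤ) : ℝ) = κ * x + 2 * (κ * c 0) := by push_cast; ring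
    rw [e1, e2, e3, e4]
    linear_combination (∏ k ∈ range r, Real.cos (κ * (c (k + 1) : ℝ) / 2) ^ 4) * h

lemma av_sum {ι : Type} (T : Finset ι) (r : ℕ) : ∀ (c : ℕ → ℤ) (g : ι → ℤ → ℝ) (x : ℤ),
    av r c (fun x => ∑ e ∈ T, g e x) x = ∑ e ∈ T, av r c (g e) x := by
  induction r with
  | zero => intro c g x; simp [av]
  | succ r ih =>
    intro c g x
    simp only [av, ih]
    rw [← sum_div]
    congr 1
    simp only [mul_sum, ← sum_add_distrib]

lemma av_smul (t : ℝ) (r : ℕ) : ∀ (c : ℕ → ℤ) (f : ℤ → ℝ) (x : ℤ),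
    av r c (fun x => t * f x) x = t * av r c f x := by
  induction r with
  | zero => intro c f x; simp [av]
  | succ r ih =>
    intro c f x
    simp only [av, ih]
    ring

lemma av_add_const (t : ℝ) (r : ℕ) : ∀ (c : ℕ → ℤ) (f : ℤ → ℝ) (x : ℤ),
    av r c (fun x => f x + t) x = av r c f x + t := by
  induction r with
  | zero => intro c f x; simp [av]
  | succ r ih =>
    intro c f x
    simp only [av, ih]
    ring

lemma av_mono (r : ℕ) : ∀ (c : ℕ → ℤ) (f g : ℤ → ℝ) (x : ℤ),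
    (∀ y : ℤ, |y - x| ≤ 2 * ∑ j ∈ range r, |c j| → f y ≤ g y) →
    av r c f x ≤ av r c g x := by
  induction r with
  | zero =>
    intro c f g x h
    simp only [av]
    apply h
    simp
  | succ r ih =>
    intro c f g x h
    simp only [av]
    have key : ∀ z : ℤ, |z - x| ≤ 2 * |c 0| → av r (fun j => c (j + 1)) f z ≤
        av r (fun j => c (j + 1)) g z := by
      intro z hz
      apply ih
      intro y hy
      apply h
      rw [sum_range_succ']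
      have : |y - x| ≤ |y - z| + |z - x| := by
        have := abs_add_le (y - z) (z - x)
        simpa using this
      linarith
    have k1 : _ := key (x - 2 * c 0) (by
      rw [show x - 2 * c 0 - x = -(2 * c 0) by ring, abs_neg, abs_mul]
      norm_num)
    have k2 : _ := key (x - c 0) (by
      rw [show x - c 0 - x = -(c 0) by ring, abs_neg]
      linarith [abs_nonneg (c 0)])
    have k3 : _ := key x (by simp)
    have k4 : _ := key (x + c 0) (by
      rw [show x + c 0 - x = (c 0) by ring]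
      linarith [abs_nonneg (c 0)])
    have k5 : _ := key (x + 2 * c 0) (by
      rw [show x + 2 * c 0 - x = (2 * c 0) by ring, abs_mul]
      norm_num)
    linarith

lemma av_zero (r : ℕ) : ∀ (c : ℕ → ℤ) (f : ℤ → ℝ) (x q : ℤ), (∀ j < r, q ∣ c j) →
    (∀ y, ¬ q ∣ y → f y = 0) → ¬ q ∣ x → av r c f x = 0 := by
  induction r with
  | zero => intro c f x q _ h hx; exact h x hx
  | succ r ih =>
    intro c f x q hc h hx
    have h0 := hc 0 (by omega)
    have hs : ∀ j < r, q ∣ c (j + 1) := fun j hj => hc (j + 1) (by omega)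
    have key : ∀ z : ℤ, q ∣ z → av r (fun j => c (j + 1)) f (x + z) = 0 := by
      intro z hz
      apply ih _ _ _ q hs h
      intro hd
      exact hx ((dvd_add_left hz).1 hd)
    have k1 := key (-(2 * c 0)) ((dvd_neg).2 (h0.mul_left 2))
    have k2 := key (-(c 0)) ((dvd_neg).2 h0)
    have k3 := key 0 (dvd_zero q)
    have k4 := key (c 0) h0
    have k5 := key (2 * c 0) (h0.mul_left 2)
    simp only [av]
    rw [add_zero] at k3
    rw [← sub_eq_add_neg] at k1 k2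
    rw [k1, k2, k3, k4, k5]
    simp

/-- indicator of divisibility -/
noncomputable def ind (q : ℤ) (x : ℤ) : ℝ := if q ∣ x then 1 else 0

lemma ind_zero (q y : ℤ) (h : ¬ q ∣ y) : ind q y = 0 := if_neg h

lemma five (x d : ℤ) (hd : ¬ (5 : ℤ) ∣ d) (T : ℤ → ℝ) (t : ℝ) (ht : 0 ≤ t)
    (hT : ∀ b, T b ≤ t) (h0 : ∀ b, ¬ (5 : ℤ) ∣ x + b * d → T b = 0) :
    (T (-2) + 4 * T (-1) + 6 * T 0 + 4 * T 1 + T 2) / 16 ≤ 3 / 8 * t := by
  have a1 := hT (-2)
  have a2 := hT (-1)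
  have a3 := hT 0
  have a4 := hT 1
  have a5 := hT 2
  have hx : x % 5 = 0 ∨ x % 5 = 1 ∨ x % 5 = 2 ∨ x % 5 = 3 ∨ x % 5 = 4 := by omega
  have hd' : d % 5 = 1 ∨ d % 5 = 2 ∨ d % 5 = 3 ∨ d % 5 = 4 := by omega
  rcases hx with hx | hx | hx | hx | hx <;> rcases hd' with hd' | hd' | hd' | hd' <;>
  · first
    | (have b1 := h0 (-1) (by omega)
       have b2 := h0 0 (by omega)
       have b3 := h0 1 (by omega)
       have b4 := h0 2 (by omega)
       rw [b1, b2, b3, b4]; linarith)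
    | (have b1 := h0 (-2) (by omega)
       have b2 := h0 0 (by omega)
       have b3 := h0 1 (by omega)
       have b4 := h0 2 (by omega)
       rw [b1, b2, b3, b4]; linarith)
    | (have b1 := h0 (-2) (by omega)
       have b2 := h0 (-1) (by omega)
       have b3 := h0 1 (by omega)
       have b4 := h0 2 (by omega)
       rw [b1, b2, b3, b4]; linarith)
    | (have b1 := h0 (-2) (by omega)
       have b2 := h0 (-1) (by omega)
       have b3 := h0 0 (by omega)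
       have b4 := h0 2 (by omega)
       rw [b1, b2, b3, b4]; linarith)
    | (have b1 := h0 (-2) (by omega)
       have b2 := h0 (-1) (by omega)
       have b3 := h0 0 (by omega)
       have b4 := h0 1 (by omega)
       rw [b1, b2, b3, b4]; linarith)

lemma three (x d : ℤ) (hd : ¬ (3 : ℤ) ∣ d) (T : ℤ → ℝ) (t : ℝ) (ht : 0 ≤ t)
    (hT : ∀ b, T b ≤ t) (h0 : ∀ b, ¬ (3 : ℤ) ∣ x + b * d → T b = 0) :
    (T (-2) + 4 * T (-1) + 6 * T 0 + 4 * T 1 + T 2) / 16 ≤ 3 / 8 * t := by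
  have a1 := hT (-2)
  have a2 := hT (-1)
  have a3 := hT 0
  have a4 := hT 1
  have a5 := hT 2
  have hx : x % 3 = 0 ∨ x % 3 = 1 ∨ x % 3 = 2 := by omega
  have hd' : d % 3 = 1 ∨ d % 3 = 2 := by omega
  rcases hx with hx | hx | hx <;> rcases hd' with hd' | hd' <;>
  · first
    | (have b1 := h0 (-1) (by omega)
       have b2 := h0 (-2) (by omega)
       have b3 := h0 1 (by omega)
       have b4 := h0 2 (by omega)
       rw [b1, b2, b3, b4]; linarith)
    | (have b1 := h0 (-2) (by omega)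
       have b2 := h0 0 (by omega)
       have b3 := h0 1 (by omega)
       rw [b1, b2, b3]; linarith)
    | (have b1 := h0 (-1) (by omega)
       have b2 := h0 0 (by omega)
       have b4 := h0 2 (by omega)
       rw [b1, b2, b4]; linarith)

/-- the common induction -/
lemma av_div (p : ℤ) (hp : 0 < p)
    (step : ∀ (x d : ℤ) (_ : ¬ p ∣ d) (T : ℤ → ℝ) (t : ℝ) (_ : 0 ≤ t)
      (_ : ∀ b, T b ≤ t) (_ : ∀ b, ¬ p ∣ x + b * d → T b = 0),
      (T (-2) + 4 * T (-1) + 6 * T 0 + 4 * T 1 + T 2) / 16 ≤ 3 / 8 * t)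
    (r : ℕ) : ∀ (k : ℕ) (c d : ℕ → ℤ) (x : ℤ), (∀ j < r, c j = p ^ (k + j) * d j) →
      (∀ j < r, ¬ p ∣ d j) → av r c (ind (p ^ (k + r))) x ≤ (3 / 8) ^ r := by
  induction r with
  | zero =>
    intro k c d x _ _
    simp only [av, ind]
    split_ifs <;> norm_num
  | succ r ih =>
    intro k c d x hc hd
    have e0 : c 0 = p ^ k * d 0 := by simpa using hc 0 (by omega)
    have hc' : ∀ j < r, c (j + 1) = p ^ (k + 1 + j) * d (j + 1) := by
      intro j hj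
      rw [hc (j + 1) (by omega)]
      congr 2
      ring
    have hK : k + (r + 1) = k + 1 + r := by ring
    rw [hK]
    have hle : ∀ z, av r (fun j => c (j + 1)) (ind (p ^ (k + 1 + r))) z ≤ (3 / 8) ^ r :=
      fun z => ih (k + 1) (fun j => c (j + 1)) (fun j => d (j + 1)) z hc'
        (fun j hj => hd (j + 1) (by omega))
    have hz : ∀ z, ¬ p ^ (k + 1) ∣ z →
        av r (fun j => c (j + 1)) (ind (p ^ (k + 1 + r))) z = 0 := by
      intro z hz
      apply av_zero r _ _ _ (p ^ (k + 1)) _ _ hz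
      · intro j hj
        show p ^ (k + 1) ∣ c (j + 1)
        rw [hc' j hj]
        exact (pow_dvd_pow p (by omega)).mul_right _
      · intro y hy
        apply ind_zero
        intro hd
        exact hy ((pow_dvd_pow p (by omega)).trans hd)
    by_cases hx : p ^ k ∣ x
    · obtain ⟨x', rfl⟩ := hx
      have := step x' (d 0) (hd 0 (by omega))
        (fun b => av r (fun j => c (j + 1)) (ind (p ^ (k + 1 + r))) (p ^ k * x' + b * c 0))
        ((3 / 8) ^ r) (by positivity) (fun b => hle _) (by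
          intro b hb
          apply hz
          intro h
          apply hb
          rw [e0, show p ^ k * x' + b * (p ^ k * d 0) = p ^ k * (x' + b * d 0) by ring,
            pow_succ] at h
          exact Int.dvd_of_mul_dvd_mul_left (pow_ne_zero k hp.ne') h)
      simp only [av]
      rw [pow_succ, mul_comm ((3 / 8 : ℝ) ^ r)]
      refine le_trans (le_of_eq ?_) this
      congr 1
      have e1 : p ^ k * x' - 2 * c 0 = p ^ k * x' + -2 * c 0 := by ring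
      have e2 : p ^ k * x' - c 0 = p ^ k * x' + -1 * c 0 := by ring
      have e3 : p ^ k * x' = p ^ k * x' + 0 * c 0 := by ring
      have e4 : p ^ k * x' + c 0 = p ^ k * x' + 1 * c 0 := by ring
      rw [e1, e2, e4]
      conv_lhs =>
        enter [1, 1, 2, 2]
        rw [e3]
    · rw [av_zero (r + 1) c _ x (p ^ k) _ _ hx]
      · positivity
      · intro j hj
        rw [hc j hj]
        exact (pow_dvd_pow p (by omega)).mul_right _
      · intro y hy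
        apply ind_zero
        intro hd
        exact hy ((pow_dvd_pow p (by omega)).trans hd)

lemma iter_none (j : ℕ) : (fun o : Option (ℕ × ℕ) => o.bind g)^[j] none = none := by
  induction j with
  | zero => rfl
  | succ j ih => rw [Function.iterate_succ_apply]; exact ih

lemma iter_succ (j n i : ℕ) :
    iter (j + 1) n i = (fun o : Option (ℕ × ℕ) => o.bind g)^[j] (g (n, i)) := by
  unfold iter
  rw [Function.iterate_succ_apply]
  rfl

lemma iter_mono (j k n i : ℕ) (h : iter j n i = none) : iter (j + k) n i = none := by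
  unfold iter at *
  rw [add_comm, Function.iterate_add_apply, h]
  exact iter_none k

/-- one step in the coordinate `v = 3 n + 3 + i` -/
lemma step (n i : ℕ) (hi : i = 1 ∨ i = 2) (h : g (n, i) ≠ none) :
    ∃ n' i', g (n, i) = some (n', i') ∧ (i' = 1 ∨ i' = 2) ∧ ∃ b : Bool,
      (3 : ℤ) * (3 * n' + 3 + i') = 5 * (3 * n + 3 + i) + sg b := by
  have hn : n = 3 * (n / 3) + n % 3 := (Nat.div_add_mod n 3).symm
  have hr : n % 3 < 3 := Nat.mod_lt _ (by norm_num)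
  set k := n / 3 with hk
  have hz : (n : ℤ) = 3 * (k : ℤ) + (n % 3 : ℕ) := by exact_mod_cast hn
  rcases hi with rfl | rfl
  · by_cases h0 : n % 3 = 0
    · refine ⟨5 * k + 1, 1, by simp [g, h0, hk], Or.inl rfl, true, ?_⟩
      rw [h0] at hz
      simp only [sg]
      push_cast at *
      rw [hz]; norm_num; ring
    · by_cases h2 : n % 3 = 2
      · refine ⟨5 * k + 4, 2, by simp [g, h2, hk], Or.inr rfl, true, ?_⟩
        rw [h2] at hz
        simp only [sg]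
        push_cast at *
        rw [hz]; ring
      · exact absurd (by simp [g, h0, h2]) h
  · by_cases h0 : n % 3 = 0
    · refine ⟨5 * k + 1, 2, by simp [g, h0, hk], Or.inr rfl, false, ?_⟩
      rw [h0] at hz
      simp only [sg]
      push_cast at *
      rw [hz]; norm_num; ring
    · by_cases h1 : n % 3 = 1
      · refine ⟨5 * k + 3, 1, by simp [g, h1, hk], Or.inl rfl, false, ?_⟩
        rw [h1] at hz
        simp only [sg]
        push_cast at *
        rw [hz]; ring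
      · exact absurd (by simp [g, h0, h1]) h

/-- a surviving orbit has a word -/
lemma word (J : ℕ) : ∀ n i : ℕ, (i = 1 ∨ i = 2) → ¬ iter J n i = none →
    ∃ s : ℕ → Bool, (3 : ℤ) ^ J ∣ 5 ^ J * (3 * n + 3 + i) +
      ∑ k ∈ range J, sg (s k) * 3 ^ k * 5 ^ (J - 1 - k) := by
  induction J with
  | zero => intro n i _ _; exact ⟨fun _ => true, by simp⟩
  | succ J ih =>
    intro n i hi h
    rw [iter_succ] at h
    have hg : g (n, i) ≠ none := by
      intro h0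
      rw [h0] at h
      exact h (iter_none J)
    obtain ⟨n', i', e, hi', b, hb⟩ := step n i hi hg
    rw [e] at h
    obtain ⟨s, hs⟩ := ih n' i' hi' h
    refine ⟨fun k => if k = 0 then b else s (k - 1), ?_⟩
    rw [sum_range_succ']
    have e1 : ∀ k ∈ range J, sg (if k + 1 = 0 then b else s (k + 1 - 1)) * 3 ^ (k + 1) *
        5 ^ (J + 1 - 1 - (k + 1)) = 3 * (sg (s k) * 3 ^ k * 5 ^ (J - 1 - k)) := by
      intro k hk
      have : J + 1 - 1 - (k + 1) = J - 1 - k := by omega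
      rw [if_neg (by omega), this, Nat.add_sub_cancel, pow_succ]
      ring
    rw [sum_congr rfl e1, ← mul_sum]
    have e2 : (5 : ℤ) ^ (J + 1) * (3 * n + 3 + i) +
        (3 * ∑ k ∈ range J, sg (s k) * 3 ^ k * 5 ^ (J - 1 - k) +
          sg (if 0 = 0 then b else s (0 - 1)) * 3 ^ 0 * 5 ^ (J + 1 - 1 - 0)) =
        3 * (5 ^ J * (3 * n' + 3 + i') + ∑ k ∈ range J, sg (s k) * 3 ^ k * 5 ^ (J - 1 - k)) := by
      simp only [if_true, pow_zero, Nat.add_sub_cancel, Nat.sub_zero, mul_one]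
      rw [pow_succ]
      linear_combination (-(5 : ℤ) ^ J) * hb
    rw [e2, pow_succ, mul_comm]
    exact mul_dvd_mul_left 3 hs

/-- with `5 u = 1` modulo `3 ^ J` the word determines `v` modulo `3 ^ J` -/
lemma word_mod (J u : ℕ) (hu : (3 : ℤ) ^ J ∣ 5 * u - 1) (v : ℤ) (s : ℕ → Bool)
    (h : (3 : ℤ) ^ J ∣ 5 ^ J * v + ∑ k ∈ range J, sg (s k) * 3 ^ k * 5 ^ (J - 1 - k)) :
    (3 : ℤ) ^ J ∣ v + ∑ k ∈ range J, sg (s k) * (3 ^ k * u ^ (k + 1)) := by
  have h5 : ∀ m : ℕ, ((5 * u : ℤ)) ^ m ≡ 1 [ZMOD 3 ^ J] := by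
    intro m
    have h1 : (5 * u : ℤ) ≡ 1 [ZMOD 3 ^ J] := by
      rw [Int.modEq_comm, Int.modEq_iff_dvd]; exact hu
    simpa using h1.pow m
  have h1 : (u : ℤ) ^ J * (5 ^ J * v + ∑ k ∈ range J, sg (s k) * 3 ^ k * 5 ^ (J - 1 - k)) ≡
      v + ∑ k ∈ range J, sg (s k) * (3 ^ k * u ^ (k + 1)) [ZMOD 3 ^ J] := by
    rw [mul_add]
    apply Int.ModEq.add
    · have := (h5 J).mul_right v
      rw [one_mul, mul_pow] at this
      rw [← mul_assoc, mul_comm ((u : ℤ) ^ J)]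
      exact this
    · rw [mul_sum]
      apply Int.ModEq.sum
      intro k hk
      rw [mem_range] at hk
      have h2 := ((h5 (J - 1 - k)).mul_left (sg (s k) * (3 ^ k * (u : ℤ) ^ (k + 1))))
      rw [mul_one] at h2
      have e3 : (u : ℤ) ^ J * (sg (s k) * 3 ^ k * 5 ^ (J - 1 - k)) =
          sg (s k) * (3 ^ k * (u : ℤ) ^ (k + 1)) * (5 * u) ^ (J - 1 - k) := by
        have e4 : (u : ℤ) ^ J = u ^ (k + 1) * u ^ (J - 1 - k) := by
          rw [← pow_add]; congr 1; omega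
        rw [e4, mul_pow]
        ring
      rw [e3]
      exact h2
  have h2 := (h.mul_left ((u : ℤ) ^ J))
  have h3 := Int.modEq_zero_iff_dvd.2 h2
  exact Int.modEq_zero_iff_dvd.1 (h1.symm.trans h3)

lemma cos_sq_shift (x y : ℝ) (m : ℤ) (h : x = y + m) :
    Real.cos (Real.pi * x) ^ 2 = Real.cos (Real.pi * y) ^ 2 := by
  rw [h, mul_add, mul_comm Real.pi (m : ℝ), Real.cos_add_int_mul_pi, mul_pow, ← zpow_natCast,
    ← zpow_mul]
  have : ((-1 : ℝ)) ^ (m * (2 : ℕ)) = 1 := by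
    rw [mul_comm, zpow_mul]
    norm_num
  rw [this, one_mul]

lemma cos_sq_le (x d : ℝ) (hd : 0 ≤ d) (h : ∀ m : ℤ, d ≤ |x - m|) :
    Real.cos (Real.pi * x) ^ 2 ≤ 1 - 4 * d ^ 2 := by
  set y := x - round x with hy
  have h1 : |y| ≤ 1 / 2 := abs_sub_round x
  have h2 : d ≤ |y| := h (round x)
  rw [cos_sq_shift x y (round x) (by rw [hy]; ring), Real.cos_sq']
  have h3 := Real.mul_le_sin (x := Real.pi * |y|) (by positivity)
    (by nlinarith [Real.pi_pos])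
  have h4 : 2 / Real.pi * (Real.pi * |y|) = 2 * |y| := by
    field_simp
  rw [h4] at h3
  have h5 : Real.sin (Real.pi * y) ^ 2 = Real.sin (Real.pi * |y|) ^ 2 := by
    rcases abs_cases y with ⟨e, _⟩ | ⟨e, _⟩
    · rw [e]
    · rw [e, mul_neg, Real.sin_neg, neg_sq]
  rw [h5]
  have h6 : (2 * d) ^ 2 ≤ (2 * |y|) ^ 2 := by
    apply pow_le_pow_left₀ (by positivity)
    linarith
  have h7 : (2 * |y|) ^ 2 ≤ Real.sin (Real.pi * |y|) ^ 2 :=
    pow_le_pow_left₀ (by positivity) h3 2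
  nlinarith

/-- rapid decay of the kernel away from the integers -/
lemma kernel_small (x : ℝ) (s L : ℕ) (hL : L = s * 9 ^ s)
    (h : ∀ m : ℤ, (1 / 3 ^ s : ℝ) ≤ |x - m|) :
    Real.cos (Real.pi * x) ^ (2 * L) ≤ (3 / 8) ^ s := by
  have h1 := cos_sq_le x (1 / 3 ^ s) (by positivity) h
  rw [pow_mul]
  have h2 : (Real.cos (Real.pi * x) ^ 2) ^ L ≤ (1 - 4 * (1 / 3 ^ s : ℝ) ^ 2) ^ L :=
    pow_le_pow_left₀ (by positivity) h1 L
  refine h2.trans ?_
  have h3 : (0 : ℝ) ≤ 1 - 4 * (1 / 3 ^ s : ℝ) ^ 2 := by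
    refine le_trans ?_ h1
    positivity
  have h4 : 1 - 4 * (1 / 3 ^ s : ℝ) ^ 2 ≤ Real.exp (-(4 * (1 / 3 ^ s : ℝ) ^ 2)) := by
    have := Real.add_one_le_exp (-(4 * (1 / 3 ^ s : ℝ) ^ 2))
    linarith
  refine (pow_le_pow_left₀ h3 h4 L).trans ?_
  rw [← Real.exp_nat_mul, hL]
  have h5 : ((s * 9 ^ s : ℕ) : ℝ) * -(4 * (1 / 3 ^ s : ℝ) ^ 2) = (s : ℝ) * (-4) := by
    push_cast
    have : ((1 : ℝ) / 3 ^ s) ^ 2 = 1 / 9 ^ s := by
      rw [div_pow, one_pow, ← pow_mul, mul_comm s 2, pow_mul]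
      norm_num
    rw [this]
    field_simp
  rw [h5, Real.exp_nat_mul]
  apply pow_le_pow_left₀ (Real.exp_pos _).le
  rw [Real.exp_neg]
  have h6 : (8 / 3 : ℝ) ≤ Real.exp 4 := by
    have := Real.add_one_le_exp (4 : ℝ)
    linarith
  calc (Real.exp 4)⁻¹ ≤ (8 / 3 : ℝ)⁻¹ := inv_anti₀ (by norm_num) h6
    _ = 3 / 8 := by norm_num

/-- kernel near its centre -/
lemma kernel_big (x : ℝ) (L : ℕ) (h : 2 * L * (Real.pi * x) ^ 2 ≤ 1) :
    1 / 2 ≤ Real.cos (Real.pi * x) ^ (2 * L) := by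
  rcases Nat.eq_zero_or_pos L with h0 | hL
  · subst h0; norm_num
  have hL' : (1 : ℝ) ≤ L := by exact_mod_cast hL
  set t := (Real.pi * x) ^ 2 with ht
  have ht0 : 0 ≤ t := by positivity
  have h1 : Real.sin (Real.pi * x) ^ 2 ≤ t := by
    rw [ht, ← sq_abs (Real.sin _), ← sq_abs (Real.pi * x)]
    exact pow_le_pow_left₀ (abs_nonneg _) Real.abs_sin_le_abs 2
  have h2 : t ≤ 1 := by nlinarith
  rw [pow_mul, Real.cos_sq']
  have h3 : (1 - t) ^ L ≤ (1 - Real.sin (Real.pi * x) ^ 2) ^ L :=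
    pow_le_pow_left₀ (by linarith) (by linarith) L
  refine le_trans ?_ h3
  have h4 := one_add_mul_le_pow (a := -t) (by linarith) L
  have h5 : (1 : ℝ) + -t = 1 - t := by ring
  rw [h5] at h4
  nlinarith

/-- `K` is a good depth for the parameters `J r s u`. -/
def Good (J r s u K : ℕ) : Prop :=
  ∀ E : ℤ, E ≠ 0 → |E| < 5 ^ r → ∀ m : ℤ, (3 : ℤ) ^ (K - s) ≤ |2 * u ^ (J - K + r) * E - m * 3 ^ K|

lemma pow_inv (J u K m : ℕ) (hu : (3 : ℤ) ^ J ∣ 5 * u - 1) (hK : K ≤ J) :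
    (5 : ℤ) ^ m * u ^ m ≡ 1 [ZMOD 3 ^ K] := by
  have h1 : (5 * u : ℤ) ≡ 1 [ZMOD 3 ^ K] := by
    rw [Int.modEq_comm, Int.modEq_iff_dvd]
    exact (pow_dvd_pow 3 hK).trans hu
  have := h1.pow m
  rw [one_pow, mul_pow] at this
  exact this

/-- what a bad depth gives -/
lemma bad (J r s u K : ℕ) (hu : (3 : ℤ) ^ J ∣ 5 * u - 1) (hK : K ≤ J) (h : ¬ Good J r s u K) :
    ∃ E R : ℤ, E ≠ 0 ∧ |E| < 5 ^ r ∧ |R| < 3 ^ (K - s) ∧
      (3 : ℤ) ^ K ∣ R * 5 ^ (J - K + r) - 2 * E := by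
  unfold Good at h
  push Not at h
  obtain ⟨E, hE, hE2, m, hm⟩ := h
  refine ⟨E, 2 * u ^ (J - K + r) * E - m * 3 ^ K, hE, hE2, hm, ?_⟩
  have h1 := pow_inv J u K (J - K + r) hu hK
  have h2 : (3 : ℤ) ^ K ∣ 5 ^ (J - K + r) * u ^ (J - K + r) - 1 := by
    have := (Int.modEq_iff_dvd.1 h1.symm)
    exact this
  have e : (2 * (u : ℤ) ^ (J - K + r) * E - m * 3 ^ K) * 5 ^ (J - K + r) - 2 * E =
      (5 ^ (J - K + r) * u ^ (J - K + r) - 1) * (2 * E) +
        3 ^ K * (-(m * 5 ^ (J - K + r))) := by ring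
  rw [e]
  exact dvd_add (h2.mul_right _) (dvd_mul_right _ _)

lemma eq_of_dvd_small (N a b : ℤ) (hN : N ∣ a - b) (h : |a - b| < N) : a = b := by
  have := Int.eq_zero_of_abs_lt_dvd hN h
  linarith

/-- the exact relation between consecutive bad depths -/
lemma chain_step (J r s K : ℕ) (hK : K + 1 ≤ J) (hs : s ≤ K)
    (hrs : 16 * 5 ^ r ≤ 3 ^ s) (E R E' R' : ℤ)
    (hE : |E| < 5 ^ r) (hR : |R| < 3 ^ (K - s)) (h : (3 : ℤ) ^ K ∣ R * 5 ^ (J - K + r) - 2 * E)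
    (hE' : |E'| < 5 ^ r) (hR' : |R'| < 3 ^ (K + 1 - s))
    (h' : (3 : ℤ) ^ (K + 1) ∣ R' * 5 ^ (J - (K + 1) + r) - 2 * E') :
    E * R' = 5 * E' * R := by
  have h1 : (3 : ℤ) ^ K ∣ R' * 5 ^ (J - K + r) - 10 * E' := by
    have h2 : (3 : ℤ) ^ K ∣ R' * 5 ^ (J - (K + 1) + r) - 2 * E' :=
      (pow_dvd_pow 3 (by omega)).trans h'
    have h3 := h2.mul_left 5
    have e : J - K + r = (J - (K + 1) + r) + 1 := by omega
    rw [e, pow_succ]
    have : R' * (5 ^ (J - (K + 1) + r) * 5) - 10 * E' =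
      5 * (R' * 5 ^ (J - (K + 1) + r) - 2 * E') := by ring
    rw [this]
    exact h3
  have h4 : (3 : ℤ) ^ K ∣ 2 * (E * R') - 10 * (E' * R) := by
    have e : 2 * (E * R') - 10 * (E' * R) = R * (R' * 5 ^ (J - K + r) - 10 * E') -
      R' * (R * 5 ^ (J - K + r) - 2 * E) := by ring
    rw [e]
    exact dvd_sub (h1.mul_left _) (h.mul_left _)
  have hrs' : (16 : ℤ) * 5 ^ r ≤ 3 ^ s := by exact_mod_cast hrs
  have h5 : |2 * (E * R') - 10 * (E' * R)| < 3 ^ K := by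
    have a1 : |2 * (E * R') - 10 * (E' * R)| ≤ 2 * (|E| * |R'|) + 10 * (|E'| * |R|) := by
      have := abs_sub (2 * (E * R')) (10 * (E' * R))
      rw [abs_mul, abs_mul, abs_mul, abs_mul] at this
      simpa using this
    have p5 : (0 : ℤ) < 5 ^ r := by positivity
    have a2 : |E| * |R'| ≤ 5 ^ r * 3 ^ (K + 1 - s) :=
      mul_le_mul hE.le hR'.le (abs_nonneg _) p5.le
    have a3 : |E'| * |R| < 5 ^ r * 3 ^ (K - s) :=
      mul_lt_mul'' hE' hR (abs_nonneg _) (abs_nonneg _)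
    have e1 : (3 : ℤ) ^ (K + 1 - s) = 3 * 3 ^ (K - s) := by
      rw [← pow_succ']; congr 1; omega
    rw [e1] at a2
    have e2 : (3 : ℤ) ^ K = 3 ^ s * 3 ^ (K - s) := by
      rw [← pow_add]; congr 1; omega
    have p3 : (0 : ℤ) < 3 ^ (K - s) := by positivity
    have a4 : 16 * 5 ^ r * 3 ^ (K - s) ≤ (3 : ℤ) ^ K := by
      rw [e2]; exact mul_le_mul_of_nonneg_right hrs' p3.le
    nlinarith
  have h6 := eq_of_dvd_small _ _ _ h4 h5
  linarith

/-- there is a good depth in `[k0, k1]` -/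
lemma chain (J r s u k0 k1 : ℕ) (hu : (3 : ℤ) ^ J ∣ 5 * u - 1) (hk : k0 ≤ k1) (hJ : k1 ≤ J)
    (hs : s ≤ k0) (hrs : 16 * 5 ^ r ≤ 3 ^ s) (hlen : 5 ^ k0 * 3 ^ k1 ≤ 5 ^ k1) :
    ∃ K, k0 ≤ K ∧ K ≤ k1 ∧ Good J r s u K := by
  by_contra hcon
  push Not at hcon
  have hrs' : (16 : ℤ) * 5 ^ r ≤ 3 ^ s := by exact_mod_cast hrs
  -- choose witnesses
  have hb : ∀ K, k0 ≤ K → K ≤ k1 → ∃ E R : ℤ, E ≠ 0 ∧ |E| < 5 ^ r ∧ |R| < 3 ^ (K - s) ∧
      (3 : ℤ) ^ K ∣ R * 5 ^ (J - K + r) - 2 * E := fun K h1 h2 =>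
    bad J r s u K hu (h2.trans hJ) (hcon K h1 h2)
  obtain ⟨E0, R0, hE0, hE0', hR0, hd0⟩ := hb k0 le_rfl hk
  have hR0' : R0 ≠ 0 := by
    intro h0
    rw [h0] at hd0
    have h1 : (3 : ℤ) ^ k0 ∣ 2 * E0 := by
      have := (dvd_neg).2 hd0
      simpa using this
    have h2 : |2 * E0| < 3 ^ k0 := by
      rw [abs_mul]
      have h3 : (3 : ℤ) ^ s ≤ 3 ^ k0 := pow_le_pow_right₀ (by norm_num) hs
      have h4 : |(2 : ℤ)| = 2 := rfl
      have p5 : (0 : ℤ) < 5 ^ r := by positivity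
      rw [h4]
      linarith
    have := Int.eq_zero_of_abs_lt_dvd h1 h2
    omega
  -- claim
  have claim : ∀ d : ℕ, k0 + d ≤ k1 → ∀ E R : ℤ, E ≠ 0 → |E| < 5 ^ r →
      |R| < 3 ^ (k0 + d - s) → (3 : ℤ) ^ (k0 + d) ∣ R * 5 ^ (J - (k0 + d) + r) - 2 * E →
      E0 * R = 5 ^ d * (E * R0) := by
    intro d
    induction d with
    | zero =>
      intro _ E R hE hE' hR hd
      simp only [add_zero] at hR hd
      have h4 : (3 : ℤ) ^ k0 ∣ 2 * (E0 * R) - 2 * (E * R0) := by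
        have e : 2 * (E0 * R) - 2 * (E * R0) = R0 * (R * 5 ^ (J - k0 + r) - 2 * E) -
          R * (R0 * 5 ^ (J - k0 + r) - 2 * E0) := by ring
        rw [e]
        exact dvd_sub (hd.mul_left _) (hd0.mul_left _)
      have h5 : |2 * (E0 * R) - 2 * (E * R0)| < 3 ^ k0 := by
        have a1 : |2 * (E0 * R) - 2 * (E * R0)| ≤ 2 * (|E0| * |R|) + 2 * (|E| * |R0|) := by
          have := abs_sub (2 * (E0 * R)) (2 * (E * R0))
          rw [abs_mul, abs_mul, abs_mul, abs_mul] at this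
          simpa using this
        have p5 : (0 : ℤ) < 5 ^ r := by positivity
        have a2 : |E0| * |R| < 5 ^ r * 3 ^ (k0 - s) :=
          mul_lt_mul'' hE0' hR (abs_nonneg _) (abs_nonneg _)
        have a3 : |E| * |R0| < 5 ^ r * 3 ^ (k0 - s) :=
          mul_lt_mul'' hE' hR0 (abs_nonneg _) (abs_nonneg _)
        have e2 : (3 : ℤ) ^ k0 = 3 ^ s * 3 ^ (k0 - s) := by
          rw [← pow_add]; congr 1; omega
        have p3 : (0 : ℤ) < 3 ^ (k0 - s) := by positivity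
        have a4 : 16 * 5 ^ r * 3 ^ (k0 - s) ≤ (3 : ℤ) ^ k0 := by
          rw [e2]; exact mul_le_mul_of_nonneg_right hrs' p3.le
        nlinarith
      have h6 := eq_of_dvd_small _ _ _ h4 h5
      rw [pow_zero, one_mul]
      linarith
    | succ d ih =>
      intro hd1 E R hE hE' hR hd
      obtain ⟨E1, R1, hE1, hE1', hR1, hd2⟩ := hb (k0 + d) (by omega) (by omega)
      have h1 := ih (by omega) E1 R1 hE1 hE1' hR1 hd2
      have h2 := chain_step J r s (k0 + d) (by omega) (by omega) hrs E1 R1 E R hE1' hR1 hd2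
        hE' hR hd
      -- E1 * R = 5 * E * R1, E0 * R1 = 5^d * (E1 * R0)
      have h3 : E1 * (E0 * R) = E1 * (5 ^ (d + 1) * (E * R0)) := by
        calc E1 * (E0 * R) = E0 * (E1 * R) := by ring
          _ = E0 * (5 * E * R1) := by rw [h2]
          _ = 5 * E * (E0 * R1) := by ring
          _ = 5 * E * (5 ^ d * (E1 * R0)) := by rw [h1]
          _ = E1 * (5 ^ (d + 1) * (E * R0)) := by ring
      exact mul_left_cancel₀ hE1 h3
  obtain ⟨E, R, hE, hE', hR, hd⟩ := hb k1 hk le_rfl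
  have hk1 : k0 + (k1 - k0) = k1 := by omega
  have h1 := claim (k1 - k0) (by omega) E R hE hE' (by rw [hk1]; exact hR) (by rw [hk1]; exact hd)
  have h2 : (5 : ℤ) ^ (k1 - k0) ≤ |E0 * R| := by
    rw [h1, abs_mul, abs_pow]
    have h3 : |(5 : ℤ)| = 5 := rfl
    rw [h3]
    have h4 : 1 ≤ |E * R0| := Int.one_le_abs (mul_ne_zero hE hR0')
    nlinarith [pow_pos (show (0 : ℤ) < 5 by norm_num) (k1 - k0)]
  have h3 : |E0 * R| < 5 ^ r * 3 ^ (k1 - s) := by
    rw [abs_mul]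
    exact mul_lt_mul'' hE0' hR (abs_nonneg _) (abs_nonneg _)
  have h4 : (5 : ℤ) ^ (k1 - k0) < 5 ^ r * 3 ^ (k1 - s) := lt_of_le_of_lt h2 h3
  have h5 : (5 : ℤ) ^ k0 * 3 ^ k1 ≤ 5 ^ k1 := by exact_mod_cast hlen
  have e1 : (5 : ℤ) ^ k1 = 5 ^ k0 * 5 ^ (k1 - k0) := by
    rw [← pow_add]; congr 1; omega
  have e2 : (3 : ℤ) ^ k1 = 3 ^ s * 3 ^ (k1 - s) := by
    rw [← pow_add]; congr 1; omega
  rw [e1] at h5
  have h6 : (3 : ℤ) ^ k1 ≤ 5 ^ (k1 - k0) := le_of_mul_le_mul_left h5 (by positivity)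
  rw [e2] at h6
  have p3 : (0 : ℤ) < 3 ^ (k1 - s) := by positivity
  have p5 : (0 : ℤ) < 5 ^ r := by positivity
  have h7 : (3 : ℤ) ^ s * 3 ^ (k1 - s) < 5 ^ r * 3 ^ (k1 - s) := lt_of_le_of_lt h6 h4
  have h8 : (3 : ℤ) ^ s < 5 ^ r := lt_of_mul_lt_mul_right h7 p3.le
  linarith

/-- the top depth is good -/
lemma good_top (J r s u : ℕ) (hu : (3 : ℤ) ^ J ∣ 5 * u - 1) (hs : s ≤ J)
    (hrs : 16 * 5 ^ r ≤ 3 ^ s) : Good J r s u J := by
  by_contra hcon
  obtain ⟨E, R, hE, hE', hR, hd⟩ := bad J r s u J hu le_rfl hcon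
  have hrs' : (16 : ℤ) * 5 ^ r ≤ 3 ^ s := by exact_mod_cast hrs
  rw [Nat.sub_self, zero_add] at hd
  have p5 : (0 : ℤ) < 5 ^ r := by positivity
  have h5 : |R * 5 ^ r - 2 * E| < 3 ^ J := by
    have a1 : |R * 5 ^ r - 2 * E| ≤ |R| * 5 ^ r + 2 * |E| := by
      have := abs_sub (R * 5 ^ r) (2 * E)
      rw [abs_mul, abs_mul, abs_pow] at this
      simpa using this
    have e2 : (3 : ℤ) ^ J = 3 ^ s * 3 ^ (J - s) := by
      rw [← pow_add]; congr 1; omega
    have p3 : (1 : ℤ) ≤ 3 ^ (J - s) := one_le_pow₀ (by norm_num)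
    have a2 : |R| * 5 ^ r ≤ 3 ^ (J - s) * 5 ^ r := mul_le_mul_of_nonneg_right hR.le p5.le
    have a3 : 16 * 5 ^ r * 3 ^ (J - s) ≤ (3 : ℤ) ^ J := by
      rw [e2]; exact mul_le_mul_of_nonneg_right hrs' (by linarith)
    nlinarith
  have h6 := eq_of_dvd_small _ _ _ hd h5
  have h7 : (5 : ℤ) ^ r ∣ 2 * E := ⟨R, by rw [← h6]; ring⟩
  have h8 : IsCoprime ((5 : ℤ) ^ r) 2 := by
    apply IsCoprime.pow_left
    exact ⟨1, -2, by norm_num⟩
  have h9 : (5 : ℤ) ^ r ∣ E := h8.dvd_of_dvd_mul_left h7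
  exact hE (Int.eq_zero_of_abs_lt_dvd h9 hE')

lemma prod_split (h : ℕ → ℝ) (h0 : ∀ k, 0 ≤ h k) (h1 : ∀ k, h k ≤ 1) (a r b : ℕ)
    (hab : a + r ≤ b) :
    ∏ k ∈ range b, h k ≤ (∏ k ∈ range a, h k) * ∏ j ∈ range r, h (a + j) := by
  rw [← prod_range_add]
  obtain ⟨c, rfl⟩ := Nat.exists_eq_add_of_le hab
  rw [prod_range_add]
  apply mul_le_of_le_one_right (prod_nonneg fun k _ => h0 k)
  exact prod_le_one (fun k _ => h0 _) (fun k _ => h1 _)

lemma four_blocks (h : ℕ → ℝ) (h0 : ∀ k, 0 ≤ h k) (h1 : ∀ k, h k ≤ 1) (r s a2 a3 a4 J : ℕ)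
    (e2 : r ≤ a2) (e3 : a2 + r ≤ a3) (e4 : a3 + r ≤ a4) (e5 : a4 + s ≤ J) :
    ∏ k ∈ range J, h k ≤ (∏ j ∈ range r, h (0 + j)) * (∏ j ∈ range r, h (a2 + j)) *
      (∏ j ∈ range r, h (a3 + j)) * ∏ j ∈ range s, h (a4 + j) := by
  have p : ∀ a n, 0 ≤ ∏ j ∈ range n, h (a + j) := fun a n => prod_nonneg fun k _ => h0 _
  have k4 := prod_split h h0 h1 a4 s J e5
  have k3 := prod_split h h0 h1 a3 r a4 e4
  have k2 := prod_split h h0 h1 a2 r a3 e3
  have k1 := prod_split h h0 h1 0 r a2 (by omega)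
  rw [prod_range_zero, one_mul] at k1
  refine k4.trans (mul_le_mul_of_nonneg_right (k3.trans (mul_le_mul_of_nonneg_right
    (k2.trans (mul_le_mul_of_nonneg_right k1 (p _ _))) (p _ _))) (p _ _))

lemma cs4 {ι : Type} (T : Finset ι) (f1 f2 f3 f4 : ι → ℝ) :
    (∑ e ∈ T, f1 e * f2 e * f3 e * f4 e) ^ 4 ≤
      (∑ e ∈ T, f1 e ^ 4) * (∑ e ∈ T, f2 e ^ 4) * (∑ e ∈ T, f3 e ^ 4) * ∑ e ∈ T, f4 e ^ 4 := by
  have h1 : (∑ e ∈ T, (f1 e * f2 e) * (f3 e * f4 e)) ^ 2 ≤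
      (∑ e ∈ T, (f1 e * f2 e) ^ 2) * ∑ e ∈ T, (f3 e * f4 e) ^ 2 :=
    sum_mul_sq_le_sq_mul_sq T _ _
  have h2 : (∑ e ∈ T, (f1 e ^ 2) * (f2 e ^ 2)) ^ 2 ≤
      (∑ e ∈ T, (f1 e ^ 2) ^ 2) * ∑ e ∈ T, (f2 e ^ 2) ^ 2 := sum_mul_sq_le_sq_mul_sq T _ _
  have h3 : (∑ e ∈ T, (f3 e ^ 2) * (f4 e ^ 2)) ^ 2 ≤
      (∑ e ∈ T, (f3 e ^ 2) ^ 2) * ∑ e ∈ T, (f4 e ^ 2) ^ 2 := sum_mul_sq_le_sq_mul_sq T _ _
  simp only [← pow_mul, show 2 * 2 = 4 from rfl] at h2 h3
  have e1 : ∑ e ∈ T, f1 e * f2 e * f3 e * f4 e = ∑ e ∈ T, (f1 e * f2 e) * (f3 e * f4 e) :=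
    sum_congr rfl fun e _ => by ring
  have e2 : ∑ e ∈ T, (f1 e * f2 e) ^ 2 = ∑ e ∈ T, (f1 e ^ 2) * (f2 e ^ 2) :=
    sum_congr rfl fun e _ => by ring
  have e3 : ∑ e ∈ T, (f3 e * f4 e) ^ 2 = ∑ e ∈ T, (f3 e ^ 2) * (f4 e ^ 2) :=
    sum_congr rfl fun e _ => by ring
  rw [e2, e3, ← e1] at h1
  have h4 : (∑ e ∈ T, f1 e * f2 e * f3 e * f4 e) ^ 4 =
      ((∑ e ∈ T, f1 e * f2 e * f3 e * f4 e) ^ 2) ^ 2 := by ring
  rw [h4]
  calc ((∑ e ∈ T, f1 e * f2 e * f3 e * f4 e) ^ 2) ^ 2 ≤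
      ((∑ e ∈ T, (f1 e ^ 2) * (f2 e ^ 2)) * ∑ e ∈ T, (f3 e ^ 2) * (f4 e ^ 2)) ^ 2 :=
        pow_le_pow_left₀ (by positivity) h1 2
    _ = (∑ e ∈ T, (f1 e ^ 2) * (f2 e ^ 2)) ^ 2 * (∑ e ∈ T, (f3 e ^ 2) * (f4 e ^ 2)) ^ 2 := by ring
    _ ≤ ((∑ e ∈ T, f1 e ^ 4) * ∑ e ∈ T, f2 e ^ 4) * ((∑ e ∈ T, f3 e ^ 4) * ∑ e ∈ T, f4 e ^ 4) :=
        mul_le_mul h2 h3 (by positivity) (mul_nonneg (sum_nonneg fun _ _ => by positivity)
          (sum_nonneg fun _ _ => by positivity))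
    _ = _ := by ring

/-- sum of the signs -/
def S (n : ℕ) (e : Fin n → Bool) : ℤ := ∑ j, sg (e j)

lemma sum_cos (n : ℕ) (α : ℝ) :
    ∑ e : Fin n → Bool, Real.cos (S n e * α) = 2 ^ n * Real.cos α ^ n := by
  have h := prodsum (ι := Fin n) (fun _ => α) 0
  rw [Fintype.card_fin, Real.cos_zero, mul_one, prod_const, card_univ, Fintype.card_fin] at h
  rw [← h]
  apply sum_congr rfl
  intro e _
  congr 1
  rw [zero_add, ← sum_mul]
  congr 1
  unfold S
  push_cast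
  rfl

/-- the weights -/
def w (u k : ℕ) : ℤ := 3 ^ k * u ^ (k + 1)

/-- fourth moment of a block -/
noncomputable def A (J u L a r : ℕ) : ℝ :=
  (∑ e : Fin (2 * L) → Bool,
    (∏ j ∈ range r, |Real.cos (Real.pi * (S (2 * L) e * w u (a + j) / 3 ^ J))|) ^ 4) / 2 ^ (2 * L)

lemma w_mod (J u a r j : ℕ) (hu : (3 : ℤ) ^ J ∣ 5 * u - 1) (hj : j < r) :
    (3 : ℤ) ^ J ∣ w u (a + j) - (3 ^ a * u ^ (a + r)) * (3 ^ j * 5 ^ (r - 1 - j)) := by
  have h1 := pow_inv J u J (r - 1 - j) hu le_rfl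
  have h2 : (3 : ℤ) ^ J ∣ 5 ^ (r - 1 - j) * u ^ (r - 1 - j) - 1 := Int.modEq_iff_dvd.1 h1.symm
  have e1 : (u : ℤ) ^ (a + r) = u ^ (a + j + 1) * u ^ (r - 1 - j) := by
    rw [← pow_add]; congr 1; omega
  have e2 : w u (a + j) - (3 ^ a * u ^ (a + r)) * (3 ^ j * 5 ^ (r - 1 - j)) =
      (5 ^ (r - 1 - j) * u ^ (r - 1 - j) - 1) * (-(3 ^ (a + j) * u ^ (a + j + 1))) := by
    unfold w
    rw [e1, pow_add 3 a j]
    ring
  rw [e2]
  exact h2.mul_right _

lemma cos4_shift (N : ℕ) (S' a b : ℤ) (h : (3 : ℤ) ^ N ∣ a - b) :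
    Real.cos (Real.pi * (S' * a / 3 ^ N)) ^ 4 = Real.cos (Real.pi * (S' * b / 3 ^ N)) ^ 4 := by
  obtain ⟨t, ht⟩ := h
  have h1 : (a : ℝ) = b + 3 ^ N * t := by
    have : a = b + 3 ^ N * t := by linarith
    rw [this]; push_cast; ring
  have h2 : (S' * a / 3 ^ N : ℝ) = S' * b / 3 ^ N + ((S' * t : ℤ) : ℝ) := by
    rw [h1]; push_cast; field_simp
  have h3 := cos_sq_shift _ _ _ h2
  calc Real.cos (Real.pi * (S' * a / 3 ^ N)) ^ 4
      = (Real.cos (Real.pi * (S' * a / 3 ^ N)) ^ 2) ^ 2 := by ring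
    _ = (Real.cos (Real.pi * (S' * b / 3 ^ N)) ^ 2) ^ 2 := by rw [h3]
    _ = _ := by ring

/-- the fourth moment as a digit average -/
lemma A_eq (J u L a r : ℕ) (lam : ℤ) (c : ℕ → ℤ)
    (hc : ∀ S' : ℤ, ∏ j ∈ range r, Real.cos (Real.pi * (S' * w u (a + j) / 3 ^ J)) ^ 4 =
      ∏ j ∈ range r, Real.cos (Real.pi * (S' * (lam * c j : ℤ) / 3 ^ J)) ^ 4) :
    A J u L a r =
      av r c (fun x => Real.cos (Real.pi * ((2 * lam * x : ℤ) / 3 ^ J)) ^ (2 * L)) 0 := by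
  have h1 : (fun x : ℤ => Real.cos (Real.pi * ((2 * lam * x : ℤ) / 3 ^ J)) ^ (2 * L)) =
      fun x : ℤ => ∑ e ∈ (univ : Finset (Fin (2 * L) → Bool)), (1 / 2 ^ (2 * L) : ℝ) *
        Real.cos ((S (2 * L) e * (Real.pi * (2 * lam / 3 ^ J))) * x) := by
    funext x
    rw [← mul_sum]
    have h2 := sum_cos (2 * L) (Real.pi * ((2 * lam * x : ℤ) / 3 ^ J))
    have h3 : ∑ e ∈ (univ : Finset (Fin (2 * L) → Bool)),
        Real.cos ((S (2 * L) e * (Real.pi * (2 * lam / 3 ^ J))) * x) =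
        ∑ e : Fin (2 * L) → Bool,
          Real.cos (S (2 * L) e * (Real.pi * ((2 * lam * x : ℤ) / 3 ^ J))) := by
      apply sum_congr rfl
      intro e _
      congr 1
      push_cast
      ring
    rw [h3, h2]
    field_simp
  rw [h1, av_sum, A, sum_div]
  apply sum_congr rfl
  intro e _
  rw [av_smul, av_cos, ← prod_pow]
  have h4 : ∏ j ∈ range r, |Real.cos (Real.pi * (S (2 * L) e * w u (a + j) / 3 ^ J))| ^ 4 =
      ∏ j ∈ range r, Real.cos (Real.pi * (S (2 * L) e * w u (a + j) / 3 ^ J)) ^ 4 := by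
    apply prod_congr rfl
    intro j _
    exact Even.pow_abs (by decide) _
  rw [h4, hc]
  simp only [Int.cast_zero, mul_zero, Real.cos_zero, one_mul]
  rw [div_mul_eq_mul_div, one_mul]
  congr 1
  apply prod_congr rfl
  intro j _
  congr 2
  push_cast
  ring

lemma cos_pow_le_one (x : ℝ) (L : ℕ) : Real.cos x ^ (2 * L) ≤ 1 := by
  rw [pow_mul]
  apply pow_le_one₀ (by positivity)
  exact Real.cos_sq_le_one x

/-- a block of length `r` at a good depth -/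
lemma A_good (J u s r K : ℕ) (hu : (3 : ℤ) ^ J ∣ 5 * u - 1) (hK : K ≤ J) (hsK : s ≤ K)
    (hrs : r ≤ s) (hg : Good J r s u K) :
    A J u (s * 9 ^ s) (J - K) r ≤ 2 * (3 / 8) ^ r := by
  have hc : ∀ S' : ℤ,
      ∏ j ∈ range r, Real.cos (Real.pi * (S' * w u ((J - K) + j) / 3 ^ J)) ^ 4 =
      ∏ j ∈ range r, Real.cos (Real.pi * (S' * (((3 : ℤ) ^ (J - K) * u ^ (J - K + r)) *
        (5 ^ j * 3 ^ (r - 1 - j)) : ℤ) / 3 ^ J)) ^ 4 := by
    intro S'
    rw [← prod_range_reflect (fun j => Real.cos (Real.pi * (S' * (((3 : ℤ) ^ (J - K) *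
      u ^ (J - K + r)) * (5 ^ j * 3 ^ (r - 1 - j)) : ℤ) / 3 ^ J)) ^ 4) r]
    apply prod_congr rfl
    intro j hj
    rw [mem_range] at hj
    apply cos4_shift
    have := w_mod J u (J - K) r j hu hj
    have e : r - 1 - (r - 1 - j) = j := by omega
    rw [e, mul_comm ((5 : ℤ) ^ (r - 1 - j))]
    exact this
  rw [A_eq J u (s * 9 ^ s) (J - K) r _ (fun j => 5 ^ j * 3 ^ (r - 1 - j)) hc]
  have hmono := av_mono r (fun j => 5 ^ j * 3 ^ (r - 1 - j))
    (fun x => Real.cos (Real.pi * ((2 * ((3 : ℤ) ^ (J - K) * u ^ (J - K + r)) * x : ℤ) / 3 ^ J)) ^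
      (2 * (s * 9 ^ s))) (fun x => ind (5 ^ r) x + (3 / 8) ^ s) 0 (by
      intro y hy
      have hb : |y| < 5 ^ r := by
        rw [sub_zero] at hy
        have h1 : ∀ j ∈ range r, |(5 : ℤ) ^ j * 3 ^ (r - 1 - j)| = 5 ^ j * 3 ^ (r - 1 - j) := by
          intro j _
          exact abs_of_pos (by positivity)
        rw [sum_congr rfl h1] at hy
        have h2 := geom_sum₂_mul (5 : ℤ) 3 r
        have h3 : (0 : ℤ) < 3 ^ r := by positivity
        linarith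
      by_cases hd : (5 : ℤ) ^ r ∣ y
      · have : ind (5 ^ r) y = 1 := if_pos hd
        rw [this]
        have := cos_pow_le_one (Real.pi * ((2 * ((3 : ℤ) ^ (J - K) * u ^ (J - K + r)) * y : ℤ) /
          3 ^ J)) (s * 9 ^ s)
        have h0 : (0 : ℝ) ≤ (3 / 8) ^ s := by positivity
        linarith
      · have : ind (5 ^ r) y = 0 := if_neg hd
        rw [this, zero_add]
        apply kernel_small _ s _ rfl
        intro m
        have hy0 : y ≠ 0 := by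
          rintro rfl
          exact hd (dvd_zero _)
        have h1 := hg y hy0 hb m
        have h2 : (3 : ℝ) ^ (K - s) ≤ |2 * (u : ℝ) ^ (J - K + r) * (y : ℝ) - (m : ℝ) * 3 ^ K| := by
          exact_mod_cast h1
        have e1 : (3 : ℝ) ^ J = 3 ^ (J - K) * 3 ^ K := by
          rw [← pow_add]; congr 1; omega
        have e2 : (3 : ℝ) ^ K = 3 ^ (K - s) * 3 ^ s := by
          rw [← pow_add]; congr 1; omega
        have e3 : ((2 * ((3 : ℤ) ^ (J - K) * u ^ (J - K + r)) * y : ℤ) : ℝ) / 3 ^ J - m =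
            (2 * u ^ (J - K + r) * y - m * 3 ^ K) / 3 ^ K := by
          rw [e1]
          push_cast
          field_simp
        rw [e3, abs_div, abs_of_pos (show (0 : ℝ) < 3 ^ K by positivity),
          le_div_iff₀ (by positivity)]
        have e4 : (1 / 3 ^ s : ℝ) * 3 ^ K = 3 ^ (K - s) := by
          rw [e2]; field_simp
        rw [e4]
        exact h2)
  refine hmono.trans ?_
  rw [av_add_const]
  have h5 := av_div 5 (by norm_num) five r 0 (fun j => 5 ^ j * 3 ^ (r - 1 - j))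
    (fun j => 3 ^ (r - 1 - j)) 0 (fun j _ => by simp) (fun j _ => by
      intro h
      have := (Int.prime_iff_natAbs_prime.2 (by norm_num) : Prime (5 : ℤ)).dvd_of_dvd_pow h
      omega)
  rw [zero_add] at h5
  have h6 : (3 / 8 : ℝ) ^ s ≤ (3 / 8) ^ r := pow_le_pow_of_le_one (by norm_num) (by norm_num) hrs
  linarith

/-- the bottom block -/
lemma A_bottom (J u s : ℕ) (hu : (3 : ℤ) ^ J ∣ 5 * u - 1) (hs : s ≤ J) (hs1 : 1 ≤ s) :
    A J u (s * 9 ^ s) (J - s) s ≤ 2 * (3 / 8) ^ s := by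
  have hc : ∀ S' : ℤ,
      ∏ j ∈ range s, Real.cos (Real.pi * (S' * w u ((J - s) + j) / 3 ^ J)) ^ 4 =
      ∏ j ∈ range s, Real.cos (Real.pi * (S' * (((3 : ℤ) ^ (J - s) * u ^ (J - s + s)) *
        (3 ^ j * 5 ^ (s - 1 - j)) : ℤ) / 3 ^ J)) ^ 4 := by
    intro S'
    apply prod_congr rfl
    intro j hj
    rw [mem_range] at hj
    apply cos4_shift
    exact w_mod J u (J - s) s j hu hj
  rw [A_eq J u (s * 9 ^ s) (J - s) s _ (fun j => 3 ^ j * 5 ^ (s - 1 - j)) hc]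
  have hmono := av_mono s (fun j => 3 ^ j * 5 ^ (s - 1 - j))
    (fun x => Real.cos (Real.pi * ((2 * ((3 : ℤ) ^ (J - s) * u ^ (J - s + s)) * x : ℤ) / 3 ^ J)) ^
      (2 * (s * 9 ^ s))) (fun x => ind (3 ^ s) x + (3 / 8) ^ s) 0 (by
      intro y _
      by_cases hd : (3 : ℤ) ^ s ∣ y
      · have : ind (3 ^ s) y = 1 := if_pos hd
        rw [this]
        have := cos_pow_le_one (Real.pi * ((2 * ((3 : ℤ) ^ (J - s) * u ^ (J - s + s)) * y : ℤ) /
          3 ^ J)) (s * 9 ^ s)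
        have h0 : (0 : ℝ) ≤ (3 / 8) ^ s := by positivity
        linarith
      · have : ind (3 ^ s) y = 0 := if_neg hd
        rw [this, zero_add]
        apply kernel_small _ s _ rfl
        intro m
        have hne : 2 * (u : ℤ) ^ (J - s + s) * y - m * 3 ^ s ≠ 0 := by
          intro h0
          apply hd
          have h1 : (3 : ℤ) ^ s ∣ 2 * (u : ℤ) ^ (J - s + s) * y := ⟨m, by linarith⟩
          have h2 : IsCoprime ((3 : ℤ) ^ s) (2 * (u : ℤ) ^ (J - s + s)) := by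
            apply IsCoprime.pow_left
            have hcu : IsCoprime (3 : ℤ) u := by
              have h3 : (3 : ℤ) ∣ 5 * u - 1 := (dvd_pow_self 3 (by omega)).trans hu
              obtain ⟨t, ht⟩ := h3
              exact ⟨-t, 5, by linarith⟩
            exact IsCoprime.mul_right ⟨1, -1, by norm_num⟩ (hcu.pow_right)
          exact h2.dvd_of_dvd_mul_left h1
        have h1 := Int.one_le_abs hne
        have h2 : (1 : ℝ) ≤ |2 * (u : ℝ) ^ (J - s + s) * (y : ℝ) - (m : ℝ) * 3 ^ s| := by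
          exact_mod_cast h1
        have e1 : (3 : ℝ) ^ J = 3 ^ (J - s) * 3 ^ s := by
          rw [← pow_add]; congr 1; omega
        have e3 : ((2 * ((3 : ℤ) ^ (J - s) * u ^ (J - s + s)) * y : ℤ) : ℝ) / 3 ^ J - m =
            (2 * u ^ (J - s + s) * y - m * 3 ^ s) / 3 ^ s := by
          rw [e1]
          push_cast
          field_simp
        rw [e3, abs_div, abs_of_pos (show (0 : ℝ) < 3 ^ s by positivity)]
        exact div_le_div_of_nonneg_right h2 (by positivity))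
  refine hmono.trans ?_
  rw [av_add_const]
  have h5 := av_div 3 (by norm_num) three s 0 (fun j => 3 ^ j * 5 ^ (s - 1 - j))
    (fun j => 5 ^ (s - 1 - j)) 0 (fun j _ => by simp) (fun j _ => by
      intro h
      have := Int.prime_three.dvd_of_dvd_pow h
      omega)
  rw [zero_add] at h5
  linarith

/-- the residue of a word -/
def V (J u : ℕ) (σ : Fin J → Bool) : ℤ := -∑ k : Fin J, sg (σ k) * w u k

/-- the kernel -/
noncomputable def G (J L : ℕ) (v0 v : ℤ) : ℝ :=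
  Real.cos (Real.pi * ((v - v0 : ℤ) / 3 ^ J)) ^ (2 * L)

lemma G_nonneg (J L : ℕ) (v0 v : ℤ) : 0 ≤ G J L v0 v := by
  unfold G
  rw [pow_mul]
  positivity

lemma G_shift (J L : ℕ) (v0 v v' : ℤ) (h : (3 : ℤ) ^ J ∣ v - v') : G J L v0 v = G J L v0 v' := by
  unfold G
  obtain ⟨t, ht⟩ := h
  have h1 : ((v - v0 : ℤ) / 3 ^ J : ℝ) = ((v' - v0 : ℤ) / 3 ^ J : ℝ) + (t : ℤ) := by
    have : v = v' + 3 ^ J * t := by linarith
    rw [this]; push_cast; field_simp; ring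
  rw [pow_mul, pow_mul, cos_sq_shift _ _ _ h1]

lemma sumG (J u L : ℕ) (v0 : ℤ) :
    ∑ σ : Fin J → Bool, G J L v0 (V J u σ) ≤
      2 ^ J * ((∑ e : Fin (2 * L) → Bool,
        ∏ k ∈ range J, |Real.cos (Real.pi * (S (2 * L) e * w u k / 3 ^ J))|) / 2 ^ (2 * L)) := by
  have h1 : ∀ σ : Fin J → Bool, G J L v0 (V J u σ) =
      (∑ e : Fin (2 * L) → Bool, Real.cos ((S (2 * L) e * (Real.pi * (v0 / 3 ^ J))) +
        ∑ k : Fin J, (sg (σ k) : ℝ) * (Real.pi * (S (2 * L) e * w u k / 3 ^ J)))) /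
          2 ^ (2 * L) := by
    intro σ
    unfold G
    rw [eq_div_iff (by positivity), mul_comm, ← sum_cos]
    apply sum_congr rfl
    intro e _
    rw [← Real.cos_neg]
    congr 1
    unfold V
    push_cast
    have h2 : ∑ k : Fin J, (sg (σ k) : ℝ) * (Real.pi * (S (2 * L) e * w u k / 3 ^ J)) =
        (S (2 * L) e * Real.pi / 3 ^ J) * ∑ k : Fin J, (sg (σ k) : ℝ) * w u k := by
      rw [mul_sum]
      apply sum_congr rfl
      intro k _
      ring
    rw [h2]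
    ring
  have h0 : ∀ Z : ℝ, (2 : ℝ) ^ J * (Z / 2 ^ (2 * L)) = (2 ^ J * Z) / 2 ^ (2 * L) :=
    fun Z => by ring
  rw [sum_congr rfl fun σ _ => h1 σ, ← sum_div, h0]
  apply div_le_div_of_nonneg_right _ (by positivity)
  rw [sum_comm, mul_sum]
  apply sum_le_sum
  intro e _
  rw [prodsum, Fintype.card_fin, mul_assoc]
  apply mul_le_mul_of_nonneg_left _ (by positivity)
  have h3 : ∏ k : Fin J, Real.cos (Real.pi * (S (2 * L) e * w u k / 3 ^ J)) =
      ∏ k ∈ range J, Real.cos (Real.pi * (S (2 * L) e * w u k / 3 ^ J)) :=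
    (prod_range (fun k => Real.cos (Real.pi * (S (2 * L) e * w u k / 3 ^ J)))).symm
  rw [h3]
  refine (le_abs_self _).trans ?_
  rw [abs_mul, abs_prod]
  exact mul_le_of_le_one_left (prod_nonneg fun _ _ => abs_nonneg _) (Real.abs_cos_le_one _)

/-- number of survivors -/
def cnt (J X Y i : ℕ) : ℕ := ((Ico Y (Y + X)).filter fun n => ¬ iter J n i = none).card

lemma cnt_le (J u L X Y i : ℕ) (hi : i = 1 ∨ i = 2) (hu : (3 : ℤ) ^ J ∣ 5 * u - 1)
    (hX : 3 * X ≤ 3 ^ J) (hL : 2 * L * (Real.pi * (3 * X / 3 ^ J)) ^ 2 ≤ 1) :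
    (cnt J X Y i : ℝ) ≤ 2 * ∑ σ : Fin J → Bool, G J L (3 * Y + 3 + i) (V J u σ) := by
  set Sv := (Ico Y (Y + X)).filter fun n => ¬ iter J n i = none with hSv
  have hw : ∀ n ∈ Sv, ∃ σ : Fin J → Bool, (3 : ℤ) ^ J ∣ (3 * n + 3 + i) - V J u σ := by
    intro n hn
    rw [hSv, mem_filter] at hn
    obtain ⟨s, hs⟩ := word J n i hi hn.2
    refine ⟨fun k => s k, ?_⟩
    have := word_mod J u hu _ s hs
    unfold V
    rw [sub_neg_eq_add, ← sum_range (fun k => sg (s k) * w u k)]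
    exact this
  choose! σ hσ using hw
  have hinj : Set.InjOn σ (Sv : Set ℕ) := by
    intro n hn n' hn' h
    have h1 := hσ n hn
    have h2 := hσ n' hn'
    rw [← h] at h2
    have h3 := dvd_sub h1 h2
    have e : (3 * (n : ℤ) + 3 + i - V J u (σ n)) - (3 * n' + 3 + i - V J u (σ n)) =
      3 * n - 3 * n' := by ring
    rw [e] at h3
    have hn1 := (mem_Ico.1 (mem_filter.1 (mem_coe.1 hn)).1)
    have hn2 := (mem_Ico.1 (mem_filter.1 (mem_coe.1 hn')).1)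
    have hX' : (3 : ℤ) * X ≤ 3 ^ J := by exact_mod_cast hX
    have h4 : |3 * (n : ℤ) - 3 * n'| < 3 ^ J := by
      rw [abs_lt]
      constructor <;> omega
    have := eq_of_dvd_small _ _ _ h3 h4
    omega
  have h1 : ∑ n ∈ Sv, G J L (3 * Y + 3 + i) (V J u (σ n)) ≤
      ∑ σ : Fin J → Bool, G J L (3 * Y + 3 + i) (V J u σ) := by
    rw [← sum_image (f := fun σ => G J L (3 * Y + 3 + i) (V J u σ)) hinj]
    exact sum_le_sum_of_subset_of_nonneg (subset_univ _) fun _ _ _ => G_nonneg _ _ _ _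
  have h2 : ∀ n ∈ Sv, (1 / 2 : ℝ) ≤ G J L (3 * Y + 3 + i) (V J u (σ n)) := by
    intro n hn
    rw [← G_shift J L _ _ _ (hσ n hn)]
    unfold G
    apply kernel_big
    refine le_trans ?_ hL
    have hn1 := (mem_Ico.1 (mem_filter.1 hn).1)
    have e : (((3 * n + 3 + i : ℤ) - (3 * Y + 3 + i) : ℤ) / 3 ^ J : ℝ) = 3 * (n - Y) / 3 ^ J := by
      push_cast; ring
    rw [e]
    have h3 : (0 : ℝ) ≤ (n : ℝ) - Y := by
      have : (Y : ℝ) ≤ n := by exact_mod_cast hn1.1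
      linarith
    have h4 : (n : ℝ) - Y ≤ X := by
      have : (n : ℝ) ≤ Y + X := by exact_mod_cast hn1.2.le
      linarith
    have hpi := Real.pi_pos
    gcongr
  have h3 : (Sv.card : ℝ) * (1 / 2) ≤ ∑ n ∈ Sv, G J L (3 * Y + 3 + i) (V J u (σ n)) := by
    have := card_nsmul_le_sum Sv _ _ h2
    rwa [nsmul_eq_mul] at this
  have h4 : (cnt J X Y i : ℝ) = Sv.card := rfl
  rw [h4]
  linarith

lemma exists_u (J : ℕ) : ∃ u : ℕ, (3 : ℤ) ^ J ∣ 5 * u - 1 := by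
  have h : IsCoprime (5 : ℤ) (3 ^ J) := by
    apply IsCoprime.pow_right
    exact ⟨-1, 2, by norm_num⟩
  obtain ⟨a, b, hab⟩ := h
  refine ⟨(a % 3 ^ J).toNat, ?_⟩
  have h0 : (0 : ℤ) ≤ a % 3 ^ J := Int.emod_nonneg _ (by positivity)
  rw [Int.toNat_of_nonneg h0]
  have h1 : (3 : ℤ) ^ J ∣ a % 3 ^ J - a := by
    have := Int.emod_add_mul_ediv a (3 ^ J)
    exact ⟨-(a / 3 ^ J), by linarith⟩
  have e : 5 * (a % 3 ^ J) - 1 = 5 * (a % 3 ^ J - a) + 3 ^ J * (-b) := by linarith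
  rw [e]
  exact dvd_add (h1.mul_left 5) (dvd_mul_right _ _)

/-- the general bound -/
lemma main_bound (J s r k0 k1 l0 l1 X Y i : ℕ) (hi : i = 1 ∨ i = 2)
    (hs1 : 1 ≤ s) (hr : r ≤ s) (hrs : 16 * 5 ^ r ≤ 3 ^ s)
    (hk0 : s + r ≤ k0) (hk : k0 ≤ k1) (hlk : 5 ^ k0 * 3 ^ k1 ≤ 5 ^ k1)
    (hl0 : k1 + r ≤ l0) (hl : l0 ≤ l1) (hll : 5 ^ l0 * 3 ^ l1 ≤ 5 ^ l1)
    (hJ : l1 + r ≤ J)
    (hX : 3 * X ≤ 3 ^ J)
    (hL : 2 * ((s * 9 ^ s : ℕ) : ℝ) * (Real.pi * (3 * X / 3 ^ J)) ^ 2 ≤ 1) :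
    (cnt J X Y i : ℝ) ^ 4 ≤ 256 * (2 ^ J) ^ 4 * (3 / 8) ^ (s + 3 * r) := by
  obtain ⟨u, hu⟩ := exists_u J
  obtain ⟨K, hK1, hK2, hK⟩ := chain J r s u k0 k1 hu hk (by omega) (by omega) hrs hlk
  obtain ⟨M, hM1, hM2, hM⟩ := chain J r s u l0 l1 hu hl (by omega) (by omega) hrs hll
  have hT := good_top J r s u hu (by omega) hrs
  set L := s * 9 ^ s with hLdef
  have h1 := cnt_le J u L X Y i hi hu hX hL
  have h2 := sumG J u L (3 * Y + 3 + i)
  set B := (∑ e : Fin (2 * L) → Bool,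
        ∏ k ∈ range J, |Real.cos (Real.pi * (S (2 * L) e * w u k / 3 ^ J))|) / 2 ^ (2 * L) with hB
  have hB0 : 0 ≤ B := by
    apply div_nonneg _ (by positivity)
    exact sum_nonneg fun _ _ => prod_nonneg fun _ _ => abs_nonneg _
  have h3 : (cnt J X Y i : ℝ) ≤ 2 * (2 ^ J * B) := by linarith
  have h4 : B ^ 4 ≤ A J u L 0 r * A J u L (J - M) r * A J u L (J - K) r * A J u L (J - s) s := by
    let F : ℕ → ℕ → (Fin (2 * L) → Bool) → ℝ := fun a n e =>
      ∏ j ∈ range n, |Real.cos (Real.pi * (S (2 * L) e * w u (a + j) / 3 ^ J))|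
    have h5 : ∑ e : Fin (2 * L) → Bool,
        ∏ k ∈ range J, |Real.cos (Real.pi * (S (2 * L) e * w u k / 3 ^ J))| ≤
        ∑ e : Fin (2 * L) → Bool, F 0 r e * F (J - M) r e * F (J - K) r e * F (J - s) s e := by
      apply sum_le_sum
      intro e _
      exact four_blocks (fun k => |Real.cos (Real.pi * (S (2 * L) e * w u k / 3 ^ J))|)
        (fun _ => abs_nonneg _) (fun _ => Real.abs_cos_le_one _) r s (J - M) (J - K) (J - s) J
        (by omega) (by omega) (by omega) (by omega)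
    have h6 := cs4 (univ : Finset (Fin (2 * L) → Bool)) (F 0 r) (F (J - M) r) (F (J - K) r)
      (F (J - s) s)
    have h7 : B ≤ (∑ e : Fin (2 * L) → Bool,
        F 0 r e * F (J - M) r e * F (J - K) r e * F (J - s) s e) / 2 ^ (2 * L) :=
      div_le_div_of_nonneg_right h5 (by positivity)
    refine (pow_le_pow_left₀ hB0 h7 4).trans ?_
    rw [div_pow]
    have h8 : A J u L 0 r * A J u L (J - M) r * A J u L (J - K) r * A J u L (J - s) s =
        ((∑ e : Fin (2 * L) → Bool, F 0 r e ^ 4) * (∑ e : Fin (2 * L) → Bool, F (J - M) r e ^ 4) *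
        (∑ e : Fin (2 * L) → Bool, F (J - K) r e ^ 4) *
          ∑ e : Fin (2 * L) → Bool, F (J - s) s e ^ 4) / (2 ^ (2 * L)) ^ 4 := by
      unfold A
      simp only [F]
      rw [div_mul_div_comm, div_mul_div_comm, div_mul_div_comm]
      congr 1
      ring
    rw [h8]
    exact div_le_div_of_nonneg_right h6 (by positivity)
  have a1 : A J u L 0 r ≤ 2 * (3 / 8) ^ r := by
    have := A_good J u s r J hu le_rfl (by omega) hr hT
    rwa [Nat.sub_self] at this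
  have a2 := A_good J u s r M hu (by omega) (by omega) hr hM
  have a3 := A_good J u s r K hu (by omega) (by omega) hr hK
  have a4 := A_bottom J u s hu (by omega) hs1
  have hA0 : ∀ a n, 0 ≤ A J u L a n := by
    intro a n
    unfold A
    apply div_nonneg _ (by positivity)
    exact sum_nonneg fun _ _ => by positivity
  have h9 : A J u L 0 r * A J u L (J - M) r * A J u L (J - K) r * A J u L (J - s) s ≤
      (2 * (3 / 8) ^ r) * (2 * (3 / 8) ^ r) * (2 * (3 / 8) ^ r) * (2 * (3 / 8) ^ s) := by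
    have := hA0
    gcongr <;> exact hA0 _ _
  have h10 : (cnt J X Y i : ℝ) ^ 4 ≤ (2 * (2 ^ J * B)) ^ 4 :=
    pow_le_pow_left₀ (by positivity) h3 4
  calc (cnt J X Y i : ℝ) ^ 4 ≤ (2 * (2 ^ J * B)) ^ 4 := h10
    _ = 16 * (2 ^ J) ^ 4 * B ^ 4 := by ring
    _ ≤ 16 * (2 ^ J) ^ 4 * ((2 * (3 / 8) ^ r) * (2 * (3 / 8) ^ r) * (2 * (3 / 8) ^ r) *
        (2 * (3 / 8) ^ s)) := mul_le_mul_of_nonneg_left (h4.trans h9) (by positivity)
    _ = 256 * (2 ^ J) ^ 4 * (3 / 8) ^ (s + 3 * r) := by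
        rw [pow_add, pow_mul']
        ring

lemma cnt_mono (J k X Y i : ℕ) : cnt (J + k) X Y i ≤ cnt J X Y i := by
  unfold cnt
  apply card_le_card
  intro n hn
  rw [mem_filter] at hn ⊢
  exact ⟨hn.1, fun h => hn.2 (iter_mono J k n i h)⟩

lemma cnt_trivial (J X Y i : ℕ) : cnt J X Y i ≤ X := by
  unfold cnt
  refine (card_filter_le _ _).trans ?_
  simp

lemma log3 : (1.09 : ℝ) ≤ Real.log 3 := by
  have h1 : Real.exp 109 ≤ 3 ^ 100 := by
    have h2 : Real.exp 109 = Real.exp 1 ^ 109 := by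
      rw [← Real.exp_nat_mul]; norm_num
    rw [h2]
    calc Real.exp 1 ^ 109 ≤ 2.7183 ^ 109 :=
          pow_le_pow_left₀ (Real.exp_pos 1).le (by have := Real.exp_one_lt_d9; linarith) 109
      _ ≤ 3 ^ 100 := by norm_num
  have h3 : (109 : ℝ) ≤ Real.log (3 ^ 100) := (Real.le_log_iff_exp_le (by positivity)).2 h1
  rw [Real.log_pow] at h3
  push_cast at h3
  linarith

lemma num1 : (3 : ℕ) ^ 1166 ≤ 5 ^ 796 := by
  have h1 : (3 : ℕ) ^ 167 ≤ 5 ^ 114 := by norm_num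
  have h2 : (3 : ℕ) ^ 164 ≤ 5 ^ 112 := by norm_num
  calc (3 : ℕ) ^ 1166 = (3 ^ 167) ^ 6 * 3 ^ 164 := by rw [← pow_mul, ← pow_add]
    _ ≤ (5 ^ 114) ^ 6 * 5 ^ 112 := Nat.mul_le_mul (Nat.pow_le_pow_left h1 6) h2
    _ = 5 ^ 796 := by rw [← pow_mul, ← pow_add]

lemma num2 : (3 : ℕ) ^ 4147 ≤ 5 ^ 2831 := by
  have h1 : (3 : ℕ) ^ 167 ≤ 5 ^ 114 := by norm_num
  have h2 : (3 : ℕ) ^ 139 ≤ 5 ^ 95 := by norm_num
  calc (3 : ℕ) ^ 4147 = (3 ^ 167) ^ 24 * 3 ^ 139 := by rw [← pow_mul, ← pow_add]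
    _ ≤ (5 ^ 114) ^ 24 * 5 ^ 95 := Nat.mul_le_mul (Nat.pow_le_pow_left h1 24) h2
    _ = 5 ^ 2831 := by rw [← pow_mul, ← pow_add]

lemma num3 : (2 : ℝ) ^ 15178 ≤ 3 ^ 9577 := by
  have h1 : (2 : ℝ) ^ 84 ≤ 3 ^ 53 := by norm_num
  have h2 : (2 : ℝ) ^ 58 ≤ 3 ^ 37 := by norm_num
  calc (2 : ℝ) ^ 15178 = (2 ^ 84) ^ 180 * 2 ^ 58 := by rw [← pow_mul, ← pow_add]
    _ ≤ (3 ^ 53) ^ 180 * 3 ^ 37 :=
        mul_le_mul (pow_le_pow_left₀ (by positivity) h1 180) h2 (by positivity) (by positivity)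
    _ = 3 ^ 9577 := by rw [← pow_mul, ← pow_add]

lemma num4 (m : ℕ) (hm : 32 ≤ m) : 16 * 5 ^ (150 * m) ≤ 3 ^ (220 * m) := by
  have h1 : (11 : ℕ) * 5 ^ 150 ≤ 10 * 3 ^ 220 := by norm_num
  have h2 : 16 * 10 ^ m ≤ 11 ^ m := by
    obtain ⟨k, rfl⟩ := Nat.exists_eq_add_of_le hm
    rw [pow_add, pow_add, ← mul_assoc]
    exact Nat.mul_le_mul (by norm_num) (Nat.pow_le_pow_left (by norm_num) k)
  have h3 : (11 * 5 ^ 150) ^ m ≤ (10 * 3 ^ 220) ^ m := Nat.pow_le_pow_left h1 m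
  rw [mul_pow, mul_pow, ← pow_mul, ← pow_mul] at h3
  have h4 : 10 ^ m * (16 * 5 ^ (150 * m)) ≤ 10 ^ m * 3 ^ (220 * m) := by
    calc 10 ^ m * (16 * 5 ^ (150 * m)) = (16 * 10 ^ m) * 5 ^ (150 * m) := by ring
      _ ≤ 11 ^ m * 5 ^ (150 * m) := Nat.mul_le_mul_right _ h2
      _ ≤ _ := h3
  exact Nat.le_of_mul_le_mul_left h4 (by positivity)

lemma num5 (m : ℕ) (hm : 6 ≤ m) : 39600 * m ≤ 9 ^ m := by
  induction m, hm using Nat.le_induction with
  | base => norm_num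
  | succ k hk ih => rw [pow_succ]; omega

lemma bound_m (m X Y i : ℕ) (hi : i = 1 ∨ i = 2) (hm : 32 ≤ m) (hX : X ≤ 3 ^ (4076 * m)) :
    (cnt (4297 * m) X Y i : ℝ) ^ 4 ≤ 256 * 3 ^ (10247 * m) := by
  have e1 : 5 ^ (370 * m) * 3 ^ (1166 * m) ≤ 5 ^ (1166 * m) := by
    rw [pow_mul 3 1166 m]
    calc 5 ^ (370 * m) * (3 ^ 1166) ^ m ≤ 5 ^ (370 * m) * (5 ^ 796) ^ m :=
          Nat.mul_le_mul_left _ (Nat.pow_le_pow_left num1 m)
      _ = 5 ^ (1166 * m) := by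
          rw [← pow_mul, ← pow_add]; congr 1; ring
  have e2 : 5 ^ (1316 * m) * 3 ^ (4147 * m) ≤ 5 ^ (4147 * m) := by
    rw [pow_mul 3 4147 m]
    calc 5 ^ (1316 * m) * (3 ^ 4147) ^ m ≤ 5 ^ (1316 * m) * (5 ^ 2831) ^ m :=
          Nat.mul_le_mul_left _ (Nat.pow_le_pow_left num2 m)
      _ = 5 ^ (4147 * m) := by
          rw [← pow_mul, ← pow_add]; congr 1; ring
  have hX3 : 3 * X ≤ 3 ^ (4297 * m) := by
    calc 3 * X ≤ 3 * 3 ^ (4076 * m) := Nat.mul_le_mul_left 3 hX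
      _ = 3 ^ (4076 * m + 1) := by rw [pow_succ]; ring
      _ ≤ 3 ^ (4297 * m) := Nat.pow_le_pow_right (by norm_num) (by omega)
  have hL : 2 * (((220 * m) * 9 ^ (220 * m) : ℕ) : ℝ) *
      (Real.pi * (3 * X / 3 ^ (4297 * m))) ^ 2 ≤ 1 := by
    have hXr : (X : ℝ) ≤ 3 ^ (4076 * m) := by exact_mod_cast hX
    have h1 : (X : ℝ) / 3 ^ (4297 * m) ≤ 1 / 3 ^ (221 * m) := by
      rw [div_le_div_iff₀ (by positivity) (by positivity), one_mul]
      calc (X : ℝ) * 3 ^ (221 * m) ≤ 3 ^ (4076 * m) * 3 ^ (221 * m) :=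
            mul_le_mul_of_nonneg_right hXr (by positivity)
        _ = 3 ^ (4297 * m) := by rw [← pow_add]; congr 1; ring
    have h2 : Real.pi * (3 * X / 3 ^ (4297 * m)) ≤ 3.15 * (3 * (1 / 3 ^ (221 * m))) := by
      have h3 : (3 * X / 3 ^ (4297 * m) : ℝ) = 3 * (X / 3 ^ (4297 * m)) := by ring
      rw [h3]
      have h4 := Real.pi_lt_d2
      exact mul_le_mul h4.le (by linarith) (by positivity) (by norm_num)
    have h3 : (Real.pi * (3 * X / 3 ^ (4297 * m))) ^ 2 ≤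
        (3.15 * (3 * (1 / 3 ^ (221 * m)))) ^ 2 := by
      apply pow_le_pow_left₀ _ h2
      have := Real.pi_pos
      positivity
    have h4 : (3.15 * (3 * (1 / 3 ^ (221 * m) : ℝ))) ^ 2 = 89.3025 / 9 ^ (221 * m) := by
      have : (9 : ℝ) ^ (221 * m) = (3 ^ (221 * m)) ^ 2 := by
        rw [show (9 : ℝ) = 3 ^ 2 by norm_num, ← pow_mul, ← pow_mul, mul_comm]
      rw [this]
      field_simp
      norm_num
    rw [h4] at h3
    have h5 : (39600 : ℝ) * m ≤ 9 ^ m := by exact_mod_cast num5 m (by omega)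
    push_cast
    have h6 : (9 : ℝ) ^ (221 * m) = 9 ^ (220 * m) * 9 ^ m := by
      rw [← pow_add]; congr 1; ring
    calc 2 * (220 * (m : ℝ) * 9 ^ (220 * m)) * (Real.pi * (3 * X / 3 ^ (4297 * m))) ^ 2
        ≤ 2 * (220 * (m : ℝ) * 9 ^ (220 * m)) * (89.3025 / 9 ^ (221 * m)) :=
          mul_le_mul_of_nonneg_left h3 (by positivity)
      _ = (440 * 89.3025 * m) / 9 ^ m := by
          rw [h6]
          have p9 : (9 : ℝ) ^ (220 * m) ≠ 0 := by positivity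
          have p9' : (9 : ℝ) ^ m ≠ 0 := by positivity
          field_simp
          norm_num
      _ ≤ 1 := by
          rw [div_le_one (by positivity)]
          have : (0 : ℝ) ≤ m := by positivity
          linarith
  have h := main_bound (4297 * m) (220 * m) (150 * m) (370 * m) (1166 * m) (1316 * m) (4147 * m)
    X Y i hi (by omega) (by omega) (num4 m hm) (by omega) (by omega) e1 (by omega) (by omega) e2
    (by omega) hX3 hL
  refine h.trans ?_
  rw [mul_assoc]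
  apply mul_le_mul_of_nonneg_left _ (by norm_num)
  have e3 : ((2 : ℝ) ^ (4297 * m)) ^ 4 * (3 / 8) ^ (220 * m + 3 * (150 * m)) =
      (2 ^ 15178 * 3 ^ 670) ^ m := by
    have a1 : ((2 : ℝ) ^ (4297 * m)) ^ 4 = (2 ^ 15178) ^ m * (8 ^ 670) ^ m := by
      have : (8 : ℝ) = 2 ^ 3 := by norm_num
      rw [this, ← pow_mul, ← pow_mul, ← pow_mul, ← pow_mul, ← pow_add]
      congr 1
      ring
    have a2 : (3 / 8 : ℝ) ^ (220 * m + 3 * (150 * m)) = (3 ^ 670) ^ m / (8 ^ 670) ^ m := by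
      rw [div_pow, ← pow_mul, ← pow_mul]
      congr 2 <;> ring
    rw [a1, a2, mul_pow]
    field_simp
  rw [e3, pow_mul 3 10247 m]
  apply pow_le_pow_left₀ (by positivity)
  calc (2 : ℝ) ^ 15178 * 3 ^ 670 ≤ 3 ^ 9577 * 3 ^ 670 :=
        mul_le_mul_of_nonneg_right num3 (by positivity)
    _ = 3 ^ 10247 := by rw [← pow_add]

/-- At most `C X ^ 0.6285` of the `n` in an interval of length `X` survive `⌊log X⌋` steps. -/
theorem result : ∃ C : ℝ, ∀ X Y i : ℕ, 1 ≤ X → (i = 1 ∨ i = 2) →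
    (((Ico Y (Y + X)).filter fun n => ¬ iter ⌊Real.log X⌋₊ n i = none).card : ℝ) ≤
      C * (X : ℝ) ^ (0.6285 : ℝ) := by
  refine ⟨3 ^ (4076 * 31) + 4 * 3 ^ 2562, ?_⟩
  intro X Y i hX hi
  have hXr : (1 : ℝ) ≤ X := by exact_mod_cast hX
  have hpow : (1 : ℝ) ≤ (X : ℝ) ^ (0.6285 : ℝ) := Real.one_le_rpow hXr (by norm_num)
  change (cnt ⌊Real.log X⌋₊ X Y i : ℝ) ≤ _
  by_cases hsmall : X ≤ 3 ^ (4076 * 31)
  · have h1 : (cnt ⌊Real.log X⌋₊ X Y i : ℝ) ≤ X := by exact_mod_cast cnt_trivial _ X Y i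
    have h2 : (X : ℝ) ≤ 3 ^ (4076 * 31) := by exact_mod_cast hsmall
    have h3 : (0 : ℝ) ≤ 4 * 3 ^ 2562 := by positivity
    have h4 : (0 : ℝ) ≤ 3 ^ (4076 * 31) := by positivity
    calc (cnt ⌊Real.log X⌋₊ X Y i : ℝ) ≤ 3 ^ (4076 * 31) := h1.trans h2
      _ ≤ (3 ^ (4076 * 31) + 4 * 3 ^ 2562) * 1 := by
        rw [mul_one]; exact le_add_of_nonneg_right h3
      _ ≤ _ := mul_le_mul_of_nonneg_left hpow (add_nonneg h4 h3)
  · push Not at hsmall
    -- the least `m`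
    have hex : ∃ m : ℕ, X ≤ 3 ^ (4076 * m) := by
      refine ⟨X, ?_⟩
      calc X ≤ 3 ^ X := (Nat.lt_pow_self (by norm_num)).le
        _ ≤ 3 ^ (4076 * X) := Nat.pow_le_pow_right (by norm_num) (by omega)
    classical
    set m := Nat.find hex with hm
    have hm1 : X ≤ 3 ^ (4076 * m) := Nat.find_spec hex
    have hm32 : 32 ≤ m := by
      by_contra hc
      push Not at hc
      have h7 : 3 ^ (4076 * m) ≤ 3 ^ (4076 * 31) := Nat.pow_le_pow_right (by norm_num) (by omega)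
      exact absurd (hm1.trans h7) (not_le.2 hsmall)
    have hm2 : 3 ^ (4076 * (m - 1)) < X := by
      have := Nat.find_min hex (m := m - 1) (by omega)
      omega
    have hm2r : (3 : ℝ) ^ (4076 * (m - 1)) ≤ X := by exact_mod_cast hm2.le
    -- number of steps
    have hlog : 4297 * m ≤ ⌊Real.log X⌋₊ := by
      apply Nat.le_floor
      have h1 : Real.log (3 ^ (4076 * (m - 1))) ≤ Real.log X :=
        Real.log_le_log (by positivity) hm2r
      rw [Real.log_pow] at h1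
      refine le_trans ?_ h1
      obtain ⟨k, hk⟩ : ∃ k, m = k + 32 := ⟨m - 32, by omega⟩
      rw [hk]
      have e : k + 32 - 1 = k + 31 := by omega
      rw [e]
      push_cast
      have h2 := log3
      have hk0 : (0 : ℝ) ≤ k := by positivity
      have h3 : (4076 * ((k : ℝ) + 31)) * 1.09 ≤ (4076 * (k + 31)) * Real.log 3 :=
        mul_le_mul_of_nonneg_left h2 (by positivity)
      linarith
    obtain ⟨d, hd⟩ := Nat.exists_eq_add_of_le hlog
    have h1 : (cnt ⌊Real.log X⌋₊ X Y i : ℝ) ≤ cnt (4297 * m) X Y i := by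
      rw [hd]
      exact_mod_cast cnt_mono _ d X Y i
    have h2 := bound_m m X Y i hi hm32 hm1
    have h3 : (3 : ℝ) ^ (10247 * (m - 1)) ≤ ((X : ℝ) ^ (0.6285 : ℝ)) ^ 4 := by
      have e1 : ((X : ℝ) ^ (0.6285 : ℝ)) ^ 4 = (X : ℝ) ^ (2.514 : ℝ) := by
        rw [← Real.rpow_natCast, ← Real.rpow_mul (by positivity)]
        norm_num
      rw [e1]
      have e2 : ((3 : ℝ) ^ (4076 * (m - 1))) ^ (2.514 : ℝ) ≤ (X : ℝ) ^ (2.514 : ℝ) :=
        Real.rpow_le_rpow (by positivity) hm2r (by norm_num)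
      refine le_trans ?_ e2
      rw [← Real.rpow_natCast, ← Real.rpow_natCast, ← Real.rpow_mul (by norm_num)]
      apply Real.rpow_le_rpow_of_exponent_le (by norm_num)
      push_cast
      have : (0 : ℝ) ≤ ((m - 1 : ℕ) : ℝ) := by positivity
      linarith
    have h4 : (cnt (4297 * m) X Y i : ℝ) ^ 4 ≤ (4 * 3 ^ 2562 * (X : ℝ) ^ (0.6285 : ℝ)) ^ 4 := by
      refine h2.trans ?_
      rw [mul_pow, mul_pow]
      have e3 : (3 : ℝ) ^ (10247 * m) = 3 ^ 10247 * 3 ^ (10247 * (m - 1)) := by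
        rw [← pow_add]; congr 1; omega
      rw [e3]
      calc (256 : ℝ) * (3 ^ 10247 * 3 ^ (10247 * (m - 1)))
          ≤ 256 * ((3 ^ 2562) ^ 4 * 3 ^ (10247 * (m - 1))) := by
            apply mul_le_mul_of_nonneg_left _ (by norm_num)
            apply mul_le_mul_of_nonneg_right _ (by positivity)
            rw [← pow_mul]
            exact pow_le_pow_right₀ (by norm_num) (by norm_num)
        _ ≤ 256 * ((3 ^ 2562) ^ 4 * ((X : ℝ) ^ (0.6285 : ℝ)) ^ 4) := by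
            apply mul_le_mul_of_nonneg_left _ (by norm_num)
            exact mul_le_mul_of_nonneg_left h3 (by positivity)
        _ = 4 ^ 4 * (3 ^ 2562) ^ 4 * ((X : ℝ) ^ (0.6285 : ℝ)) ^ 4 := by ring
    have h5 : (cnt (4297 * m) X Y i : ℝ) ≤ 4 * 3 ^ 2562 * (X : ℝ) ^ (0.6285 : ℝ) :=
      le_of_pow_le_pow_left₀ (by norm_num) (by positivity) h4
    have h6 : (0 : ℝ) ≤ 3 ^ (4076 * 31) := by positivity
    calc (cnt ⌊Real.log X⌋₊ X Y i : ℝ) ≤ 4 * 3 ^ 2562 * (X : ℝ) ^ (0.6285 : ℝ) := h1.trans h5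
      _ ≤ (3 ^ (4076 * 31) + 4 * 3 ^ 2562) * (X : ℝ) ^ (0.6285 : ℝ) :=
        mul_le_mul_of_nonneg_right (by linarith) (by positivity)

end Pool.Agent.Results.MP_db05cd_nt.BelowEntropy
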