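import Mathlib

namespace Pool.Agent.Results.MP_db05cd_nt.MahlerEquivalence

open Set

/-- The partial map `g` of the problem; `none` means undefined. -/
def g (p : ℕ × ℕ) : Option (ℕ × ℕ) :=
  if p.2 = 1 then
    (if p.1 % 3 = 0 then some (5 * (p.1 / 3) + 1, 1)
     else if p.1 % 3 = 2 then some (5 * (p.1 / 3) + 4, 2)
     else none)
  else
    (if p.1 % 3 = 0 then some (5 * (p.1 / 3) + 1, 2)
     else if p.1 % 3 = 1 then some (5 * (p.1 / 3) + 3, 1)
     else none)

/-- The `j`-th iterate of `g` at `(n, i)`, `none` if it is undefined. -/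
def iter (j n i : ℕ) : Option (ℕ × ℕ) := (fun o : Option (ℕ × ℕ) => o.bind g)^[j] (some (n, i))

lemma iter_zero (n i : ℕ) : iter 0 n i = some (n, i) := rfl

lemma iter_succ (j n i : ℕ) : iter (j + 1) n i = (iter j n i).bind g := by
  unfold iter
  rw [Function.iterate_succ_apply']

/-- the interval of `x - n` attached to the state -/
noncomputable def lo (s : ℕ) : ℝ := if s = 1 then 13 / 10 else 3 / 2
/-- the interval of `x - n` attached to the state -/
noncomputable def upr (s : ℕ) : ℝ := if s = 1 then 3 / 2 else 17 / 10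

lemma lo_ge (s : ℕ) : 13 / 10 ≤ lo s := by unfold lo; split_ifs <;> norm_num
lemma upr_le (s : ℕ) : upr s ≤ 17 / 10 := by unfold upr; split_ifs <;> norm_num
lemma lo_le_upr (s : ℕ) : lo s ≤ upr s := by unfold lo upr; split_ifs <;> norm_num

/-- forward step: the real interval of the image, contracted, lies in the old one -/
lemma step_interval {n s m t : ℕ} (hs : s = 1 ∨ s = 2) (h : g (n, s) = some (m, t)) :
    (t = 1 ∨ t = 2) ∧ (n : ℝ) + lo s ≤ ((m : ℝ) + lo t) * (3 / 5) ∧
      ((m : ℝ) + upr t) * (3 / 5) ≤ (n : ℝ) + upr s := by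
  have hn := Nat.div_add_mod n 3
  set k := n / 3 with hk
  have hr : n % 3 < 3 := Nat.mod_lt _ (by norm_num)
  have hnR : (n : ℝ) = 3 * (k : ℝ) + ((n % 3 : ℕ) : ℝ) := by exact_mod_cast hn.symm
  rcases hs with rfl | rfl
  · unfold g at h
    simp only [if_true] at h
    rw [← hk] at h
    split_ifs at h with h1 h2
    · simp only [Option.some.injEq, Prod.mk.injEq] at h
      obtain ⟨rfl, rfl⟩ := h
      rw [h1] at hnR
      rw [hnR]
      push_cast
      unfold lo upr
      norm_num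
      constructor <;> linarith
    · simp only [Option.some.injEq, Prod.mk.injEq] at h
      obtain ⟨rfl, rfl⟩ := h
      rw [h2] at hnR
      rw [hnR]
      push_cast
      unfold lo upr
      norm_num
      constructor <;> linarith
  · unfold g at h
    simp only [OfNat.ofNat_ne_one, if_false] at h
    rw [← hk] at h
    split_ifs at h with h1 h2
    · simp only [Option.some.injEq, Prod.mk.injEq] at h
      obtain ⟨rfl, rfl⟩ := h
      rw [h1] at hnR
      rw [hnR]
      push_cast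
      unfold lo upr
      norm_num
      constructor <;> linarith
    · simp only [Option.some.injEq, Prod.mk.injEq] at h
      obtain ⟨rfl, rfl⟩ := h
      rw [h2] at hnR
      rw [hnR]
      push_cast
      unfold lo upr
      norm_num
      constructor <;> linarith

/-- A sequence of pairs describing a nonterminating orbit. -/
lemma exists_seq {n i : ℕ} (h : ∀ j, iter j n i ≠ none) :
    ∃ P : ℕ → ℕ × ℕ, P 0 = (n, i) ∧ (∀ j, iter j n i = some (P j)) ∧
      ∀ j, g (P j) = some (P (j + 1)) := by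
  choose P hP using fun j => Option.ne_none_iff_exists'.1 (h j)
  refine ⟨P, ?_, hP, ?_⟩
  · have := hP 0
    rw [iter_zero] at this
    exact (Option.some.inj this).symm
  · intro j
    have := hP (j + 1)
    rw [iter_succ, hP j] at this
    exact this

/-- The conditions on the real number attached to `(n, i)`. -/
def Good (n i : ℕ) (x : ℝ) : Prop :=
  ⌊x⌋ = (n : ℤ) + 1 ∧ (i = 1 → Int.fract x ≤ 1 / 2) ∧ (i = 2 → 1 / 2 ≤ Int.fract x) ∧
    ∀ j : ℕ, Int.fract (x * (5 / 3) ^ j) ∈ Icc (3 / 10 : ℝ) (7 / 10)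

lemma fract_of_mem {x : ℝ} {n : ℕ} (h1 : (n : ℝ) + 13 / 10 ≤ x) (h2 : x ≤ (n : ℝ) + 17 / 10) :
    ⌊x⌋ = (n : ℤ) + 1 ∧ Int.fract x = x - (n + 1) := by
  have hf : ⌊x⌋ = (n : ℤ) + 1 := by
    rw [Int.floor_eq_iff]
    push_cast
    constructor <;> linarith
  refine ⟨hf, ?_⟩
  rw [Int.fract, hf]
  push_cast
  ring

lemma exists_real {n i : ℕ} (hi : i = 1 ∨ i = 2) (h : ∀ j, iter j n i ≠ none) :
    ∃ x : ℝ, Good n i x := by
  obtain ⟨P, hP0, -, hPs⟩ := exists_seq h
  have hst : ∀ j, (P j).2 = 1 ∨ (P j).2 = 2 := by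
    intro j
    induction j with
    | zero => rw [hP0]; exact hi
    | succ j ih =>
      have := hPs j
      exact (step_interval (n := (P j).1) (s := (P j).2) (m := (P (j + 1)).1)
        (t := (P (j + 1)).2) ih this).1
  let a : ℕ → ℝ := fun j => (((P j).1 : ℝ) + lo (P j).2) * (3 / 5) ^ j
  let b : ℕ → ℝ := fun j => (((P j).1 : ℝ) + upr (P j).2) * (3 / 5) ^ j
  have hab : ∀ j, a j ≤ b j := by
    intro j
    have := lo_le_upr (P j).2
    have hp : (0 : ℝ) ≤ (3 / 5) ^ j := by positivity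
    exact mul_le_mul_of_nonneg_right (by linarith) hp
  have ha : ∀ j, a j ≤ a (j + 1) := by
    intro j
    have := (step_interval (n := (P j).1) (s := (P j).2) (m := (P (j + 1)).1)
        (t := (P (j + 1)).2) (hst j) (hPs j)).2.1
    have hp : (0 : ℝ) ≤ (3 / 5) ^ j := by positivity
    have := mul_le_mul_of_nonneg_right this hp
    simp only [a]
    rw [pow_succ]
    linarith
  have hb : ∀ j, b (j + 1) ≤ b j := by
    intro j
    have := (step_interval (n := (P j).1) (s := (P j).2) (m := (P (j + 1)).1)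
        (t := (P (j + 1)).2) (hst j) (hPs j)).2.2
    have hp : (0 : ℝ) ≤ (3 / 5) ^ j := by positivity
    have := mul_le_mul_of_nonneg_right this hp
    simp only [b]
    rw [pow_succ]
    linarith
  have hanti : Antitone fun j => Icc (a j) (b j) := by
    apply antitone_nat_of_succ_le
    intro j
    exact Icc_subset_Icc (ha j) (hb j)
  have hmem := ciSup_mem_iInter_Icc_of_antitone_Icc hanti hab
  set x := ⨆ j, a j with hx
  rw [mem_iInter] at hmem
  have hj : ∀ j, ((P j).1 : ℝ) + lo (P j).2 ≤ x * (5 / 3) ^ j ∧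
      x * (5 / 3) ^ j ≤ ((P j).1 : ℝ) + upr (P j).2 := by
    intro j
    have h1 := hmem j
    have hp : (0 : ℝ) ≤ (5 / 3) ^ j := by positivity
    have hpp : ((3 : ℝ) / 5) ^ j * (5 / 3) ^ j = 1 := by
      rw [← mul_pow]; norm_num
    have h2 := mul_le_mul_of_nonneg_right h1.1 hp
    have h3 := mul_le_mul_of_nonneg_right h1.2 hp
    simp only [a, b] at h2 h3
    rw [mul_assoc, hpp, mul_one] at h2 h3
    exact ⟨h2, h3⟩
  have hfr : ∀ j, ⌊x * (5 / 3) ^ j⌋ = ((P j).1 : ℤ) + 1 ∧
      Int.fract (x * (5 / 3) ^ j) = x * (5 / 3) ^ j - ((P j).1 + 1) := by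
    intro j
    have h1 := lo_ge (P j).2
    have h2 := upr_le (P j).2
    exact fract_of_mem (by linarith [(hj j).1]) (by linarith [(hj j).2])
  have h0 := hj 0
  have hf0 := hfr 0
  rw [pow_zero, mul_one, hP0] at h0 hf0
  refine ⟨x, hf0.1, ?_, ?_, ?_⟩
  · intro h1
    rw [hf0.2]
    have := h0.2
    simp only [h1, upr, if_true] at this
    linarith
  · intro h2
    rw [hf0.2]
    have := h0.1
    simp only [h2, lo] at this
    norm_num at this
    linarith
  · intro j
    rw [(hfr j).2]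
    have h1 := lo_ge (P j).2
    have h2 := upr_le (P j).2
    constructor
    · linarith [(hj j).1]
    · linarith [(hj j).2]

/-- One step backwards from the real number to the integers. -/
lemma step_real {n s : ℕ} {x : ℝ} (hs : s = 1 ∨ s = 2) (hfl : ⌊x⌋ = (n : ℤ) + 1)
    (h1 : s = 1 → Int.fract x ≤ 1 / 2) (h2 : s = 2 → 1 / 2 ≤ Int.fract x)
    (hx : Int.fract x ∈ Icc (3 / 10 : ℝ) (7 / 10))
    (hy : Int.fract (x * (5 / 3)) ∈ Icc (3 / 10 : ℝ) (7 / 10)) :
    ∃ m t : ℕ, g (n, s) = some (m, t) ∧ (t = 1 ∨ t = 2) ∧ ⌊x * (5 / 3)⌋ = (m : ℤ) + 1 ∧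
      (t = 1 → Int.fract (x * (5 / 3)) ≤ 1 / 2) ∧ (t = 2 → 1 / 2 ≤ Int.fract (x * (5 / 3))) := by
  set f := Int.fract x with hf
  set f' := Int.fract (x * (5 / 3)) with hf'
  set M := ⌊x * (5 / 3)⌋ with hM
  have e1 : x = (n : ℝ) + 1 + f := by
    have := Int.floor_add_fract x
    rw [hfl] at this
    push_cast at this
    linarith
  have e2 : x * (5 / 3) = (M : ℝ) + f' := (Int.floor_add_fract _).symm
  have e3 : 5 * ((n : ℝ) + 1 + f) = 3 * (M : ℝ) + 3 * f' := by
    rw [← e1]; linarith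
  obtain ⟨hx1, hx2⟩ := hx
  obtain ⟨hy1, hy2⟩ := hy
  -- the integer `D = 3 M - 5 n - 5 = 5 f - 3 f'`
  have e4 : ((3 * M - 5 * (n : ℤ) - 5 : ℤ) : ℝ) = 5 * f - 3 * f' := by
    push_cast; linarith
  have hD1 : (-1 : ℤ) < 3 * M - 5 * (n : ℤ) - 5 := by
    have : ((-1 : ℤ) : ℝ) < ((3 * M - 5 * (n : ℤ) - 5 : ℤ) : ℝ) := by
      rw [e4]; push_cast; linarith
    exact_mod_cast this
  have hD2 : 3 * M - 5 * (n : ℤ) - 5 < 3 := by
    have : ((3 * M - 5 * (n : ℤ) - 5 : ℤ) : ℝ) < ((3 : ℤ) : ℝ) := by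
      rw [e4]; push_cast; linarith
    exact_mod_cast this
  have hMnn : 1 ≤ M := by omega
  obtain ⟨m, hm⟩ : ∃ m : ℕ, M = (m : ℤ) + 1 := ⟨(M - 1).toNat, by omega⟩
  have hcases : 3 * M - 5 * (n : ℤ) - 5 = 0 ∨ 3 * M - 5 * (n : ℤ) - 5 = 1 ∨
      3 * M - 5 * (n : ℤ) - 5 = 2 := by omega
  rcases hs with rfl | rfl
  · have hf1 : f ≤ 1 / 2 := h1 rfl
    rcases hcases with hc | hc | hc
    · -- d = 2
      rw [hc] at e4
      push_cast at e4
      refine ⟨m, 2, ?_, Or.inr rfl, hm, fun h => absurd h (by norm_num), fun _ => by linarith⟩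
      have hn3 : n % 3 = 2 := by omega
      have hmm : m = 5 * (n / 3) + 4 := by omega
      unfold g
      simp only [if_true]
      rw [if_neg (by omega), if_pos hn3, hmm]
    · rw [hc] at e4
      push_cast at e4
      refine ⟨m, 1, ?_, Or.inl rfl, hm, fun _ => by linarith, fun h => absurd h (by norm_num)⟩
      have hn3 : n % 3 = 0 := by omega
      have hmm : m = 5 * (n / 3) + 1 := by omega
      unfold g
      simp only [if_true]
      rw [if_pos hn3, hmm]
    · exfalso
      rw [hc] at e4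
      push_cast at e4
      linarith
  · have hf1 : 1 / 2 ≤ f := h2 rfl
    rcases hcases with hc | hc | hc
    · exfalso
      rw [hc] at e4
      push_cast at e4
      linarith
    · rw [hc] at e4
      push_cast at e4
      refine ⟨m, 2, ?_, Or.inr rfl, hm, fun h => absurd h (by norm_num), fun _ => by linarith⟩
      have hn3 : n % 3 = 0 := by omega
      have hmm : m = 5 * (n / 3) + 1 := by omega
      unfold g
      simp only [OfNat.ofNat_ne_one, if_false]
      rw [if_pos hn3, hmm]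
    · rw [hc] at e4
      push_cast at e4
      refine ⟨m, 1, ?_, Or.inl rfl, hm, fun _ => by linarith, fun h => absurd h (by norm_num)⟩
      have hn3 : n % 3 = 1 := by omega
      have hmm : m = 5 * (n / 3) + 3 := by omega
      unfold g
      simp only [OfNat.ofNat_ne_one, if_false]
      rw [if_neg (by omega), if_pos hn3, hmm]

/-- the whole orbit from the real number -/
lemma orbit_real {n i : ℕ} {x : ℝ} (hi : i = 1 ∨ i = 2) (h : Good n i x) (j : ℕ) :
    ∃ m t : ℕ, iter j n i = some (m, t) ∧ (t = 1 ∨ t = 2) ∧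
      ⌊x * (5 / 3) ^ j⌋ = (m : ℤ) + 1 ∧ (t = 1 → Int.fract (x * (5 / 3) ^ j) ≤ 1 / 2) ∧
      (t = 2 → 1 / 2 ≤ Int.fract (x * (5 / 3) ^ j)) := by
  induction j with
  | zero =>
    refine ⟨n, i, rfl, hi, ?_, ?_, ?_⟩
    · rw [pow_zero, mul_one]; exact h.1
    · rw [pow_zero, mul_one]; exact h.2.1
    · rw [pow_zero, mul_one]; exact h.2.2.1
  | succ j ih =>
    obtain ⟨m, t, h1, h2, h3, h4, h5⟩ := ih
    have hx := h.2.2.2 j
    have hy := h.2.2.2 (j + 1)
    rw [pow_succ, ← mul_assoc] at hy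
    obtain ⟨m', t', k1, k2, k3, k4, k5⟩ := step_real h2 h3 h4 h5 hx hy
    refine ⟨m', t', ?_, k2, ?_, ?_, ?_⟩
    · rw [iter_succ, h1]; exact k1
    · rw [pow_succ, ← mul_assoc]; exact k3
    · rw [pow_succ, ← mul_assoc]; exact k4
    · rw [pow_succ, ← mul_assoc]; exact k5

lemma good_unique {n i : ℕ} {x y : ℝ} (hi : i = 1 ∨ i = 2) (hx : Good n i x) (hy : Good n i y) :
    x = y := by
  have key : ∀ j : ℕ, |x - y| ≤ (3 / 5) ^ j := by
    intro j
    obtain ⟨m, t, h1, -, h3, -⟩ := orbit_real hi hx j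
    obtain ⟨m', t', k1, -, k3, -⟩ := orbit_real hi hy j
    rw [h1] at k1
    have hmm : m = m' := congrArg Prod.fst (Option.some.inj k1)
    subst hmm
    have a1 := Int.floor_le (x * (5 / 3) ^ j)
    have a2 := Int.lt_floor_add_one (x * (5 / 3) ^ j)
    have b1 := Int.floor_le (y * (5 / 3) ^ j)
    have b2 := Int.lt_floor_add_one (y * (5 / 3) ^ j)
    rw [h3] at a1 a2
    rw [k3] at b1 b2
    have hp : (0 : ℝ) < (3 / 5) ^ j := by positivity
    have hpp : ((5 : ℝ) / 3) ^ j * (3 / 5) ^ j = 1 := by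
      rw [← mul_pow]; norm_num
    have habs : |(x - y) * (5 / 3) ^ j| ≤ 1 := by
      rw [abs_le]
      constructor <;> nlinarith
    have : |x - y| = |(x - y) * (5 / 3) ^ j| * (3 / 5) ^ j := by
      rw [abs_mul, abs_of_pos (show (0 : ℝ) < (5 / 3) ^ j by positivity), mul_assoc, hpp, mul_one]
    rw [this]
    exact mul_le_of_le_one_left hp.le habs
  have hlim : Filter.Tendsto (fun j : ℕ => ((3 : ℝ) / 5) ^ j) Filter.atTop (nhds 0) :=
    tendsto_pow_atTop_nhds_zero_of_lt_one (by norm_num) (by norm_num)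
  have h0 : |x - y| ≤ 0 := ge_of_tendsto' hlim key
  have h1 : x - y = 0 := abs_eq_zero.1 (le_antisymm h0 (abs_nonneg _))
  linarith

/-- Nonterminating starting points correspond to the real numbers all of whose fractional parts
`{x (5/3)^j}` lie in `[3/10, 7/10]`. -/
theorem result :
    ((∀ n i : ℕ, (i = 1 ∨ i = 2) → ∃ j, iter j n i = none) ↔
      ¬ ∃ x : ℝ, 0 < x ∧ ∀ j : ℕ, Int.fract (x * (5 / 3) ^ j) ∈ Icc (3 / 10 : ℝ) (7 / 10)) ∧
    (∀ n i : ℕ, (i = 1 ∨ i = 2) →
      ((∀ j, iter j n i ≠ none) ↔ ∃ x : ℝ, Good n i x) ∧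
      ∀ x y : ℝ, Good n i x → Good n i y → x = y) := by
  have hsecond : ∀ n i : ℕ, (i = 1 ∨ i = 2) →
      ((∀ j, iter j n i ≠ none) ↔ ∃ x : ℝ, Good n i x) ∧
      ∀ x y : ℝ, Good n i x → Good n i y → x = y := by
    intro n i hi
    refine ⟨⟨?_, ?_⟩, fun x y hx hy => good_unique hi hx hy⟩
    · intro h
      exact exists_real hi h
    · rintro ⟨x, hx⟩ j
      obtain ⟨m, t, h1, -⟩ := orbit_real hi hx j
      rw [h1]
      exact Option.some_ne_none _
  refine ⟨?_, hsecond⟩
  constructor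
  · rintro hall ⟨x, hx0, hx⟩
    -- shift until the floor is at least one
    obtain ⟨J, hJ⟩ := pow_unbounded_of_one_lt (2 / x) (show (1 : ℝ) < 5 / 3 by norm_num)
    have hge : 2 < x * (5 / 3) ^ J := by
      rw [div_lt_iff₀ hx0] at hJ
      linarith
    set y := x * (5 / 3) ^ J with hy
    have hyj : ∀ j : ℕ, Int.fract (y * (5 / 3) ^ j) ∈ Icc (3 / 10 : ℝ) (7 / 10) := by
      intro j
      rw [hy, mul_assoc, ← pow_add]
      exact hx _
    have hfl : 2 ≤ ⌊y⌋ := by
      rw [Int.le_floor]; push_cast; exact hge.le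
    obtain ⟨n, hn⟩ : ∃ n : ℕ, ⌊y⌋ = (n : ℤ) + 1 := ⟨(⌊y⌋ - 1).toNat, by omega⟩
    rcases le_total (Int.fract y) (1 / 2) with hle | hle
    · obtain ⟨j, hj⟩ := hall n 1 (Or.inl rfl)
      have hG : Good n 1 y := ⟨hn, fun _ => hle, fun h => absurd h (by norm_num), hyj⟩
      obtain ⟨m, t, h1, -⟩ := orbit_real (Or.inl rfl) hG j
      rw [hj] at h1
      exact absurd h1.symm (Option.some_ne_none _)
    · obtain ⟨j, hj⟩ := hall n 2 (Or.inr rfl)
      have hG : Good n 2 y := ⟨hn, fun h => absurd h (by norm_num), fun _ => hle, hyj⟩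
      obtain ⟨m, t, h1, -⟩ := orbit_real (Or.inr rfl) hG j
      rw [hj] at h1
      exact absurd h1.symm (Option.some_ne_none _)
  · intro hno n i hi
    by_contra hcon
    push Not at hcon
    obtain ⟨x, hx⟩ := exists_real hi hcon
    apply hno
    refine ⟨x, ?_, hx.2.2.2⟩
    have h1 := Int.floor_le x
    rw [hx.1] at h1
    push_cast at h1
    have : (0 : ℝ) ≤ n := Nat.cast_nonneg n
    linarith

end Pool.Agent.Results.MP_db05cd_nt.MahlerEquivalence
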